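import Pool.Agent.Helper14.WK.StA

/-!
# Project TL: newforms of any level, vanishing traces

`IsNewN f`: `f` is a newform of weight `k`, level `N` and trivial character. The trace of `f` to level
`M`, `N = q M`, `q` a prime dividing `M`, vanishes; if the root number is `+1`, then `∑ f(z + i/q) = 0`.
-/

set_option autoImplicit false

open UpperHalfPlane CongruenceSubgroup
open scoped MatrixGroups

namespace Pool.Agent.Helper28.TL

open Pool.Agent.Helper14.CV (G0)
open Pool.Agent.Helper14.WK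

/-- `f` is a newform of weight `k`, level `N` and trivial character: it is a cusp form on `Γ₀(N)` with
first coefficient `1`, an eigenform of all Hecke operators `T_l` (`l` a prime not dividing `N`) and `U_q`
(`q` a prime dividing `N`), and its eigenvalues at the primes not dividing `N` do not come from a lower
level: for every prime `q` and `M` with `N = q M`, no nonzero cusp form on `Γ₀(M)` has the same
eigenvalues at all primes not dividing `N`. -/
structure IsNewN {N : ℕ} {k : ℤ} (f : CuspForm (G0 N) k) : Prop where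
  normalised : fcK f 1 = 1
  hecke : ∀ l : ℕ, l.Prime → ¬ l ∣ N → HeckeEigK f l (fcK f l)
  hecke_bad : ∀ q : ℕ, q.Prime → q ∣ N → ∀ m : ℕ, fcK f (q * m) = fcK f q * fcK f m
  new : ∀ q M : ℕ, q.Prime → N = q * M → ∀ g : CuspForm (G0 M) k,
    (∀ l : ℕ, l.Prime → ¬ l ∣ N → HeckeEigK g l (fcK f l)) → g = 0

/-- For a prime power level this is the definition of the project WK. -/
theorem IsNewN.iff_primePow (p n : ℕ) (hp : p.Prime) (hn : 1 ≤ n) {k : ℤ}
    (f : CuspForm (G0 (p ^ n)) k) : IsNewN f ↔ IsNewformK p n f := by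
  have hdiv : ∀ l : ℕ, l.Prime → (l ∣ p ^ n ↔ l = p) := fun l hl =>
    ⟨fun h => (Nat.prime_dvd_prime_iff_eq hl hp).1 (hl.dvd_of_dvd_pow h),
      fun h => h ▸ dvd_pow_self _ (by omega)⟩
  constructor
  · intro h
    refine ⟨h.normalised, fun l hl hlp => h.hecke l hl (mt (hdiv l hl).1 hlp),
      h.hecke_bad p hp (dvd_pow_self p (by omega)), fun g hg => ?_⟩
    refine h.new p (p ^ (n - 1)) hp ?_ g fun l hl hlN => hg l hl fun e => hlN ((hdiv l hl).2 e)
    rw [← pow_succ', Nat.sub_add_cancel hn]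
  · intro h
    refine ⟨h.normalised, fun l hl hlN => h.hecke l hl fun e => hlN ((hdiv l hl).2 e), ?_, ?_⟩
    · intro q hq hqN
      obtain rfl := (hdiv q hq).1 hqN
      exact h.hecke_p
    · intro q M hq hM g hg
      obtain rfl := (hdiv q hq).1 (hM ▸ dvd_mul_right q M)
      have hM' : M = q ^ (n - 1) := by
        have e : q * M = q * q ^ (n - 1) := by rw [← hM, ← pow_succ', Nat.sub_add_cancel hn]
        exact Nat.eq_of_mul_eq_mul_left hq.pos e
      subst hM'
      exact h.new g fun l hl hlp => hg l hl (mt (hdiv l hl).1 hlp)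

private theorem im_W (r : ℝ) (hr : 0 < r) (z : ℂ) (hz : 0 < z.im) :
    0 < (-1 / ((r : ℂ) * z)).im := by
  have hw : 0 < ((r : ℂ) * z).im := by
    rw [Complex.im_ofReal_mul r z]
    exact mul_pos hr hz
  have hw0 : (r : ℂ) * z ≠ 0 := by
    intro h0
    rw [h0, Complex.zero_im] at hw
    exact lt_irrefl _ hw
  have e : -1 / ((r : ℂ) * z) = -((r : ℂ) * z)⁻¹ := by ring
  rw [e, Complex.neg_im, Complex.inv_im]
  have hn : 0 < Complex.normSq ((r : ℂ) * z) := Complex.normSq_pos.2 hw0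
  have : 0 < ((r : ℂ) * z).im / Complex.normSq ((r : ℂ) * z) := div_pos hw hn
  have e2 : -(-((r : ℂ) * z).im / Complex.normSq ((r : ℂ) * z)) =
      ((r : ℂ) * z).im / Complex.normSq ((r : ℂ) * z) := by ring
  rw [e2]
  exact this

/-- The trace of a newform to level `M`, `K = q M`, `q ∣ M`, vanishes. -/
theorem trace_zero (h2 : SKN2) (h3 : SKN3) (q M : ℕ) (hq : q.Prime) (hqM : q ∣ M) (hM : M ≠ 0)
    (A K : ℕ) (hK : K = q * M) (f : CuspForm (G0 K) (2 * A + 2)) (hf : IsNewN f) :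
    ∀ z : ℂ, 0 < z.im → ∑ i ∈ Finset.range q, ((i * (M : ℂ) * z + 1) ^ (2 * A + 2))⁻¹ *
      fzK f (z / (i * (M : ℂ) * z + 1)) = 0 := by
  subst hK
  have hne : NeZero M := ⟨hM⟩
  have hne2 : NeZero (q * M) := ⟨mul_ne_zero hq.ne_zero hM⟩
  obtain ⟨g, hg⟩ := h2 q M hne hne2 A f hq hqM
  have hg0 : g = 0 := by
    refine hf.new q M hq rfl g fun l hl hlN => ?_
    refine h3 q M hne hne2 A f g l _ hq hqM hl ?_ (hf.hecke l hl hlN) ?_ hg
    · rintro rfl
      exact hlN (dvd_mul_right _ _)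
    · intro hlM
      exact hlN (hlM.mul_left q)
  intro z hz
  have h4 : fzK g z = 0 := by
    rw [hg0]
    rfl
  have h5 := hg z hz
  rw [h4] at h5
  exact h5.symm

/-- With root number `+1`: `∑ f(z + i/q) = 0`. -/
theorem shift_zero (h8 : SKA8) (q M : ℕ) (hq : q.Prime) (hM : M ≠ 0) (A K : ℕ) [hne : NeZero K]
    (hK : K = q * M) (hk : 0 < (2 * A + 2 : ℤ)) (f : CuspForm (G0 K) (2 * A + 2))
    (hA : ∀ z : ℂ, 0 < z.im → ∑ i ∈ Finset.range q, ((i * (M : ℂ) * z + 1) ^ (2 * A + 2))⁻¹ *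
      fzK f (z / (i * (M : ℂ) * z + 1)) = 0) (hR : RootOneK hk f) :
    ∀ z : ℂ, 0 < z.im → ∑ i ∈ Finset.range q, fzK f (z + i / q) = 0 := by
  have hW := h8 K hne A hk f hR
  have hp0 : (q : ℂ) ≠ 0 := by exact_mod_cast hq.ne_zero
  have hpm : (M : ℂ) ≠ 0 := by exact_mod_cast hM
  have hKc : (K : ℂ) = q * (M : ℂ) := by rw [hK]; push_cast; ring
  have hK0 : (K : ℂ) ≠ 0 := by rw [hKc]; exact mul_ne_zero hp0 hpm
  have hKpos : (0 : ℝ) < (K : ℝ) := by exact_mod_cast Nat.pos_of_ne_zero hne.ne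
  have hB : ∀ z : ℂ, 0 < z.im → ∑ i ∈ Finset.range q, fzK f (z - i / q) = 0 := by
    intro z hz
    have hz0 : z ≠ 0 := by
      intro h0
      rw [h0, Complex.zero_im] at hz
      exact lt_irrefl _ hz
    have hzi : ∀ i : ℕ, 0 < (z - i / q).im := by
      intro i
      have e : ((i : ℂ) / q).im = 0 := by
        have e1 : ((i : ℂ) / q) = (((i : ℝ) / q : ℝ) : ℂ) := by push_cast; rfl
        rw [e1, Complex.ofReal_im]
      rw [Complex.sub_im, e, sub_zero]
      exact hz
    have hzi0 : ∀ i : ℕ, z - (i : ℂ) / q ≠ 0 := by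
      intro i h0
      have h1 := hzi i
      rw [h0, Complex.zero_im] at h1
      exact lt_irrefl _ h1
    have hwim : 0 < (-1 / ((K : ℂ) * z)).im := by
      have := im_W (K : ℝ) hKpos z hz
      exact_mod_cast this
    have h1 := hA _ hwim
    have hc : (-1 : ℂ) ^ (A + 1) * (K : ℂ) ^ (A + 1) * z ^ (2 * A + 2) ≠ 0 :=
      mul_ne_zero (mul_ne_zero (pow_ne_zero _ (neg_ne_zero.2 one_ne_zero)) (pow_ne_zero _ hK0))
        (pow_ne_zero _ hz0)
    have h2 : ∑ i ∈ Finset.range q, ((i * (M : ℂ) * (-1 / ((K : ℂ) * z)) + 1) ^ (2 * A + 2))⁻¹ *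
        fzK f ((-1 / ((K : ℂ) * z)) / (i * (M : ℂ) * (-1 / ((K : ℂ) * z)) + 1)) =
        ((-1 : ℂ) ^ (A + 1) * (K : ℂ) ^ (A + 1) * z ^ (2 * A + 2)) *
          ∑ i ∈ Finset.range q, fzK f (z - i / q) := by
      rw [Finset.mul_sum]
      refine Finset.sum_congr rfl fun i _ => ?_
      have e1 : (i : ℂ) * (M : ℂ) * (-1 / ((K : ℂ) * z)) + 1 = (z - i / q) / z := by
        rw [hKc]
        field_simp
        ring
      have e2 : (-1 / ((K : ℂ) * z)) / ((z - i / q) / z) = -1 / ((K : ℂ) * (z - i / q)) := by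
        have h3 := hzi0 i
        rw [div_div_div_eq]
        rw [div_eq_div_iff (mul_ne_zero (mul_ne_zero hK0 hz0) h3) (mul_ne_zero hK0 h3)]
        ring
      rw [e1, e2, hW _ (hzi i)]
      have h4 : (((z - (i : ℂ) / q) / z) ^ (2 * A + 2))⁻¹ * (z - (i : ℂ) / q) ^ (2 * A + 2) =
          z ^ (2 * A + 2) := by
        rw [div_pow, inv_div, div_mul_cancel₀ _ (pow_ne_zero _ (hzi0 i))]
      calc (((z - (i : ℂ) / q) / z) ^ (2 * A + 2))⁻¹ *
            ((-1) ^ (A + 1) * (K : ℂ) ^ (A + 1) * (z - (i : ℂ) / q) ^ (2 * A + 2) *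
              fzK f (z - i / q))
          = ((-1) ^ (A + 1) * (K : ℂ) ^ (A + 1)) *
            ((((z - (i : ℂ) / q) / z) ^ (2 * A + 2))⁻¹ * (z - (i : ℂ) / q) ^ (2 * A + 2)) *
              fzK f (z - i / q) := by ring
        _ = _ := by rw [h4]
    rw [h2] at h1
    rcases mul_eq_zero.1 h1 with h | h
    · exact absurd h hc
    · exact h
  intro z hz
  have hz' : 0 < (z + ((q - 1 : ℕ) : ℂ) / q).im := by
    have e : (((q - 1 : ℕ) : ℂ) / q).im = 0 := by
      have e1 : (((q - 1 : ℕ) : ℂ) / q) = ((((q - 1 : ℕ) : ℝ) / q : ℝ) : ℂ) := by push_cast; rfl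
      rw [e1, Complex.ofReal_im]
    rw [Complex.add_im, e, add_zero]
    exact hz
  have h4 := hB _ hz'
  rw [← Finset.sum_range_reflect] at h4
  rw [← h4]
  refine Finset.sum_congr rfl fun i hi => ?_
  have hi' := Finset.mem_range.1 hi
  congr 1
  have e2 : ((q - 1 - i : ℕ) : ℂ) = ((q - 1 : ℕ) : ℂ) - i := by
    rw [Nat.cast_sub (by omega)]
  rw [e2]
  field_simp
  ring

end Pool.Agent.Helper28.TL
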