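import Pool.Agent.Helper4.TL.Eps

/-!
# Project TL: from the potential of a form of level `4 p^n` to a twisted symbol of level `p^n`

`evn I (p, q) = I (p, q) + I (-p, q)`, `half I (x, y) = I (x, 2 y)`.
-/

set_option autoImplicit false

namespace Pool.Agent.Helper28.TL

open Pool.Agent.Helper14.CV (Homog EqC act Tl act_act)
open Pool.Agent.Helper28.WK (Tw evw)
open Pool.Agent.Helper4.TL

/-- The relations of the potential `I` of a newform of weight `2`, level `N`, root number `+1`. -/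
structure PotRel (N : ℤ) (I : ℤ → ℤ → ℂ) : Prop where
  hom : Homog I
  sym : ∀ a b c d : ℤ, a * d - b * c = 1 → N ∣ c → EqC (act a b c d I) I
  fr : EqC (act 0 (-1) N 0 I) (-I)

/-- The vanishing of the sum of the translates by `i/r`. -/
def Ur (r : ℕ) (I : ℤ → ℤ → ℂ) : Prop := ∀ p q : ℤ, (p ≠ 0 ∨ q ≠ 0) →
  ∑ i ∈ Finset.range r, I (r * p + (i : ℤ) * q) (r * q) = 0

/-- The vanishing of the trace. -/
def Vr (r : ℕ) (M : ℤ) (I : ℤ → ℤ → ℂ) : Prop := ∃ C : ℂ, ∀ p q : ℤ, (p ≠ 0 ∨ q ≠ 0) →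
  ∑ i ∈ Finset.range r, I p ((i : ℤ) * M * p + q) = C

/-- The even part. -/
def evn (I : ℤ → ℤ → ℂ) : ℤ → ℤ → ℂ := fun p q => I p q + I (-p) q

private lemma neg_or {p q : ℤ} (hpq : p ≠ 0 ∨ q ≠ 0) : (-p ≠ 0 ∨ q ≠ 0) := by
  rcases hpq with h0 | h0
  · exact Or.inl (neg_ne_zero.mpr h0)
  · exact Or.inr h0

theorem homog_evn {I : ℤ → ℤ → ℂ} (h : Homog I) : Homog (evn I) := by
  intro k p q hk hpq
  have h1 := h k p q hk hpq
  have h2 := h k (-p) q hk (neg_or hpq)
  have e : -(k * p) = k * (-p) := by ring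
  simp only [evn]
  rw [h1, e, h2]

theorem evn_even {I : ℤ → ℤ → ℂ} (p q : ℤ) : evn I (-p) q = evn I p q := by
  simp only [evn]
  rw [neg_neg]
  ring

theorem trans_one {N : ℤ} {I : ℤ → ℤ → ℂ} (h : PotRel N I) (p q : ℤ)
    (hpq : p ≠ 0 ∨ q ≠ 0) : I (p + q) q = I p q := by
  obtain ⟨c, hc⟩ := h.sym 1 1 0 1 (by norm_num) (dvd_zero _)
  have e0 := hc 1 0 (Or.inl one_ne_zero)
  have e1 := hc p q hpq
  simp only [act, one_mul, mul_zero, add_zero, zero_mul, zero_add, mul_one] at e0 e1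
  have hc0 : c = 0 := by
    have : I 1 0 = I 1 0 + c := e0
    exact left_eq_add.mp this
  rw [e1, hc0, add_zero]

theorem PotRel.evn {N : ℤ} (hN : N ≠ 0) {I : ℤ → ℤ → ℂ} (h : PotRel N I) : PotRel N (evn I) := by
  refine ⟨homog_evn h.hom, ?_, ?_⟩
  · intro a b c d hdet hc
    obtain ⟨c1, h1⟩ := h.sym a b c d hdet hc
    obtain ⟨c2, h2⟩ := h.sym a (-b) (-c) d (by linarith [hdet, (by ring : a * d - -b * -c = a * d - b * c)])
      ((dvd_neg).mpr hc)
    refine ⟨c1 + c2, ?_⟩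
    intro p q hpq
    have e1 := h1 p q hpq
    have e2 := h2 (-p) q (neg_or hpq)
    simp only [act, Pool.Agent.Helper28.TL.evn] at e1 e2 ⊢
    have e3 : a * -p + -b * q = -(a * p + b * q) := by ring
    have e4 : -c * -p + d * q = c * p + d * q := by ring
    rw [e3, e4] at e2
    rw [e1, e2]
    ring
  · obtain ⟨c, hc⟩ := h.fr
    refine ⟨c + c, ?_⟩
    intro p q hpq
    have e1 := hc p q hpq
    have e2 := hc (-p) q (neg_or hpq)
    simp only [act, Pool.Agent.Helper28.TL.evn, Pi.neg_apply] at e1 e2 ⊢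
    have hne : (-(0 * p + -1 * q) ≠ 0 ∨ N * p + 0 * q ≠ 0) := by
      rcases hpq with h0 | h0
      · right
        rw [zero_mul, add_zero]
        exact mul_ne_zero hN h0
      · left
        have : -(0 * p + -1 * q) = q := by ring
        rw [this]
        exact h0
    have e3 := h.hom (-1) (-(0 * p + -1 * q)) (N * p + 0 * q) (by norm_num) hne
    have e4 : (-1 : ℤ) * (-(0 * p + -1 * q)) = 0 * -p + -1 * q := by ring
    have e5 : (-1 : ℤ) * (N * p + 0 * q) = N * -p + 0 * q := by ring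
    rw [e4, e5] at e3
    rw [← e3, e1, e2]
    ring

/-- A sum over a period read backwards. -/
private lemma sum_back (F : ℕ → ℂ) (r : ℕ) (h : F r = F 0) :
    ∑ j ∈ Finset.range r, F (r - j) = ∑ j ∈ Finset.range r, F j := by
  have hr : ∑ j ∈ Finset.range r, F (r - j) = ∑ j ∈ Finset.range r, F (j + 1) := by
    rw [← Finset.sum_range_reflect]
    refine Finset.sum_congr rfl ?_
    intro j hj
    have hj' := Finset.mem_range.mp hj
    congr 1
    omega
  rw [hr]
  have h1 := Finset.sum_range_succ F r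
  have h2 := Finset.sum_range_succ' F r
  rw [h1, h] at h2
  exact (add_right_cancel h2).symm

theorem Ur.evn {N : ℤ} {I : ℤ → ℤ → ℂ} (h : PotRel N I) {r : ℕ} (hr : 0 < r) (hU : Ur r I) :
    Ur r (evn I) := by
  intro p q hpq
  have e1 := hU p q hpq
  have e2 := hU (-p) q (neg_or hpq)
  have hr0 : (r : ℤ) ≠ 0 := by exact_mod_cast hr.ne'
  simp only [Pool.Agent.Helper28.TL.evn]
  rw [Finset.sum_add_distrib, e1, zero_add, ← e2]
  by_cases hq : q = 0
  · subst hq
    refine Finset.sum_congr rfl fun i _ => ?_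
    simp
  · have hrq : (r : ℤ) * q ≠ 0 := mul_ne_zero hr0 hq
    have h0 := sum_back (fun i : ℕ => I (r * -p + (i : ℤ) * q) (r * q)) r (by
      have t := trans_one h (r * -p + ((0 : ℕ) : ℤ) * q) (r * q) (Or.inr hrq)
      rw [← t]
      congr 1
      simp)
    rw [← h0]
    refine Finset.sum_congr rfl fun i hi => ?_
    have hir : i ≤ r := (Finset.mem_range.mp hi).le
    have t := trans_one h (-(r * p + (i : ℤ) * q)) (r * q) (Or.inr hrq)
    rw [← t]
    congr 1
    rw [Nat.cast_sub hir]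
    ring

theorem Vr.evn {I : ℤ → ℤ → ℂ} {r : ℕ} {M : ℤ} (hV : Vr r M I) : Vr r M (evn I) := by
  obtain ⟨C, hC⟩ := hV
  refine ⟨C + C, fun p q hpq => ?_⟩
  have n1 : (-p ≠ 0 ∨ q + ((r - 1 : ℕ) : ℤ) * M * p ≠ 0) := by
    by_cases hp : p = 0
    · right
      rcases hpq with h0 | h0
      · exact absurd hp h0
      · rw [hp, mul_zero, add_zero]
        exact h0
    · exact Or.inl (neg_ne_zero.mpr hp)
  have e1 := hC p q hpq
  have e2 := hC (-p) (q + ((r - 1 : ℕ) : ℤ) * M * p) n1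
  simp only [Pool.Agent.Helper28.TL.evn]
  rw [Finset.sum_add_distrib, e1, ← e2, ← Finset.sum_range_reflect]
  congr 1
  refine Finset.sum_congr rfl fun i hi => ?_
  have hi' := Finset.mem_range.mp hi
  congr 1
  rw [Nat.cast_sub (by omega)]
  ring

theorem Tl_evn {N : ℤ} {I : ℤ → ℤ → ℂ} (h : PotRel N I) (l : ℕ) (hl : 0 < l) (lam : ℂ)
    (hT : ∀ p q : ℤ, (p ≠ 0 ∨ q ≠ 0) → Tl l 1 I p q = lam * I p q) :
    ∀ p q : ℤ, (p ≠ 0 ∨ q ≠ 0) → Tl l 1 (evn I) p q = lam * evn I p q := by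
  intro p q hpq
  have e1 := hT p q hpq
  have e2 := hT (-p) q (neg_or hpq)
  have hsum : ∑ j ∈ Finset.range l, I (-(p + 1 * (j : ℤ) * q)) ((l : ℤ) * q) =
      ∑ j ∈ Finset.range l, I (-p + 1 * (j : ℤ) * q) ((l : ℤ) * q) := by
    by_cases hq : q = 0
    · subst hq
      simp
    · have hlq : (l : ℤ) * q ≠ 0 := mul_ne_zero (by exact_mod_cast hl.ne') hq
      have h0 := sum_back (fun i : ℕ => I (-p + 1 * (i : ℤ) * q) (l * q)) l (by
        have t := trans_one h (-p + 1 * ((0 : ℕ) : ℤ) * q) (l * q) (Or.inr hlq)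
        rw [← t]
        congr 1
        simp)
      rw [← h0]
      refine Finset.sum_congr rfl fun j hj => ?_
      have hjl : j ≤ l := (Finset.mem_range.mp hj).le
      have t := trans_one h (-(p + 1 * (j : ℤ) * q)) ((l : ℤ) * q) (Or.inr hlq)
      rw [← t]
      congr 1
      rw [Nat.cast_sub hjl]
      ring
  simp only [Tl, evn] at e1 e2 ⊢
  rw [Finset.sum_add_distrib, hsum]
  have e3 : -((l : ℤ) * p) = (l : ℤ) * -p := by ring
  rw [e3]
  linear_combination e1 + e2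

/-! ### The change of variable -/

/-- `half I (x, y) = I (x, 2 y)`. -/
def half (I : ℤ → ℤ → ℂ) : ℤ → ℤ → ℂ := fun x y => I x (2 * y)

private lemma two_or {p q : ℤ} (hpq : p ≠ 0 ∨ q ≠ 0) : (p ≠ 0 ∨ 2 * q ≠ 0) := by
  rcases hpq with h | h
  · exact Or.inl h
  · exact Or.inr (mul_ne_zero two_ne_zero h)

theorem homog_half {I : ℤ → ℤ → ℂ} (h : Homog I) : Homog (half I) := by
  intro k p q hk hpq
  have h1 := h k p (2 * q) hk (two_or hpq)
  have e : 2 * (k * q) = k * (2 * q) := by ring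
  simp only [half]
  rw [e, h1]

private lemma even_case {P : ℤ} {I : ℤ → ℤ → ℂ} (h : PotRel (4 * P) I)
    (a b c d : ℤ) (hd : a * d - b * c = 1) (hP : Odd P) (hc : P ∣ c) (b2 : (2 : ℤ) ∣ b) (c2 : (2 : ℤ) ∣ c) :
    EqC (act a b c d (half I)) (half I) := by
  obtain ⟨b', rfl⟩ := b2
  have hc2 : 4 * P ∣ 2 * c := by
    obtain ⟨c', rfl⟩ := hc
    have : (2 : ℤ) ∣ c' := by
      rcases Int.even_mul.1 (even_iff_two_dvd.2 c2) with h0 | h0
      · exact absurd h0 (by rw [Int.not_even_iff_odd]; exact hP)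
      · exact even_iff_two_dvd.1 h0
    obtain ⟨c'', rfl⟩ := this
    exact ⟨c'', by ring⟩
  obtain ⟨C, hC⟩ := h.sym a b' (2 * c) d (by linear_combination hd) hc2
  refine ⟨C, fun p q hpq => ?_⟩
  have e := hC p (2 * q) (two_or hpq)
  simp only [act, half] at e ⊢
  have e1 : a * p + 2 * b' * q = a * p + b' * (2 * q) := by ring
  have e2 : 2 * (c * p + d * q) = 2 * c * p + d * (2 * q) := by ring
  rw [e1, e2, e]

private lemma T_case {P : ℤ} {I : ℤ → ℤ → ℂ} (h : PotRel (4 * P) I) (hU : Ur 2 I) :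
    EqC (act 1 1 0 1 (half I)) (-half I) := by
  refine ⟨0, fun p q hpq => ?_⟩
  have e := hU p (2 * q) (two_or hpq)
  rw [Finset.sum_range_succ, Finset.sum_range_one] at e
  have h1 := h.hom 2 p (2 * q) two_ne_zero (two_or hpq)
  have hne : (p + q ≠ 0 ∨ 2 * q ≠ 0) := by
    by_cases hq : q = 0
    · left
      rcases hpq with h0 | h0
      · rw [hq, add_zero]; exact h0
      · exact absurd hq h0
    · exact Or.inr (mul_ne_zero two_ne_zero hq)
  have h2 := h.hom 2 (p + q) (2 * q) two_ne_zero hne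
  simp only [act, half, Pi.neg_apply]
  push_cast at e
  have e1 : (2 : ℤ) * p + 0 * (2 * q) = 2 * p := by ring
  have e2 : (2 : ℤ) * p + 1 * (2 * q) = 2 * (p + q) := by ring
  rw [e1, e2, h1, h2] at e
  have e3 : 1 * p + 1 * q = p + q := by ring
  have e4 : 2 * (0 * p + 1 * q) = 2 * q := by ring
  rw [e3, e4]
  linear_combination e

private lemma S_case {P : ℤ} {I : ℤ → ℤ → ℂ} (hV : Vr 2 (2 * P) I) :
    EqC (act 1 0 P 1 (half I)) (-half I) := by
  obtain ⟨C, hC⟩ := hV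
  refine ⟨C, fun p q hpq => ?_⟩
  have e := hC p (2 * q) (two_or hpq)
  rw [Finset.sum_range_succ, Finset.sum_range_one] at e
  simp only [act, half, Pi.neg_apply]
  push_cast at e
  have e1 : (0 : ℤ) * (2 * P) * p + 2 * q = 2 * q := by ring
  have e2 : (1 : ℤ) * (2 * P) * p + 2 * q = 2 * (P * p + 1 * q) := by ring
  have e3 : 1 * p + 0 * q = p := by ring
  rw [e1, e2] at e
  rw [e3]
  linear_combination e

private lemma step_T {G : ℤ → ℤ → ℂ} (hT : EqC (act 1 1 0 1 G) (-G)) (a b c d : ℤ)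
    (hd : a * d - b * c = 1)
    (h : EqC (act a (b - a) c (d - c) G) (eps a (b - a) c (d - c) • G)) :
    EqC (act a b c d G) (eps a b c d • G) := by
  have o1 : ¬ (2 : ℤ) ∣ a * (d - c) - (b - a) * c := by
    have : a * (d - c) - (b - a) * c = 1 := by linear_combination hd
    rw [this]; decide
  have m := eps_mul (a := a) (b := b - a) (c := c) (d := d - c) (a' := 1) (b' := 1) (c' := 0) (d' := 1)
    o1 (by decide)
  have eT : eps 1 1 0 1 = -1 := by decide
  have i1 : a * 1 + (b - a) * 0 = a := by ring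
  have i2 : a * 1 + (b - a) * 1 = b := by ring
  have i3 : c * 1 + (d - c) * 0 = c := by ring
  have i4 : c * 1 + (d - c) * 1 = d := by ring
  rw [i1, i2, i3, i4, eT] at m
  have hdet : (1 : ℤ) * 1 - 1 * 0 ≠ 0 := by norm_num
  have h1 := h.act (a := 1) (b := 1) (c := 0) (d := 1) hdet
  rw [act_act, i1, i2, i3, i4] at h1
  refine h1.trans ?_
  have e : act 1 1 0 1 (eps a (b - a) c (d - c) • G) = eps a (b - a) c (d - c) • act 1 1 0 1 G := rfl
  rw [e, m]
  have h2 := hT.smul (eps a (b - a) c (d - c))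
  rwa [smul_neg, ← neg_smul, ← mul_neg_one] at h2

private lemma step_S {P : ℤ} (hP : Odd P) {G : ℤ → ℤ → ℂ} (hS : EqC (act 1 0 P 1 G) (-G)) (a b c d : ℤ)
    (hd : a * d - b * c = 1)
    (h : EqC (act (a - b * P) b (c - d * P) d G) (eps (a - b * P) b (c - d * P) d • G)) :
    EqC (act a b c d G) (eps a b c d • G) := by
  have o1 : ¬ (2 : ℤ) ∣ (a - b * P) * d - b * (c - d * P) := by
    have : (a - b * P) * d - b * (c - d * P) = 1 := by linear_combination hd
    rw [this]; decide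
  have m := eps_mul (a := a - b * P) (b := b) (c := c - d * P) (d := d) (a' := 1) (b' := 0) (c' := P)
    (d' := 1) o1 (by norm_num)
  have eT : eps 1 0 P 1 = -1 := by
    have : eps 1 0 P 1 = eps 1 0 1 1 := by
      apply eps_mod <;> first | simp | skip
      obtain ⟨k, hk⟩ := hP
      exact ⟨k, by rw [hk]; ring⟩
    rw [this]; decide
  have i1 : (a - b * P) * 1 + b * P = a := by ring
  have i2 : (a - b * P) * 0 + b * 1 = b := by ring
  have i3 : (c - d * P) * 1 + d * P = c := by ring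
  have i4 : (c - d * P) * 0 + d * 1 = d := by ring
  rw [i1, i2, i3, i4, eT] at m
  have hdet : (1 : ℤ) * 1 - 0 * P ≠ 0 := by norm_num
  have h1 := h.act (a := 1) (b := 0) (c := P) (d := 1) hdet
  rw [act_act, i1, i2, i3, i4] at h1
  refine h1.trans ?_
  have e : act 1 0 P 1 (eps (a - b * P) b (c - d * P) d • G) =
    eps (a - b * P) b (c - d * P) d • act 1 0 P 1 G := rfl
  rw [e, m]
  have h2 := hS.smul (eps (a - b * P) b (c - d * P) d)
  rwa [smul_neg, ← neg_smul, ← mul_neg_one] at h2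

/-- The potential in the variable `2z` is a twisted symbol of level `p^n`. -/
theorem symE_half {p n : ℕ} (hp : Odd p) {I : ℤ → ℤ → ℂ} (h : PotRel (4 * (p : ℤ) ^ n) I) (hU : Ur 2 I)
    (hV : Vr 2 (2 * (p : ℤ) ^ n) I) : SymE p 0 n (half I) := by
  have hP : Odd ((p : ℤ) ^ n) := by
    apply Odd.pow
    exact_mod_cast hp
  refine ⟨homog_half h.hom, ?_⟩
  have hT := T_case h hU
  have hS := S_case hV
  have base : ∀ a b c d : ℤ, a * d - b * c = 1 → (p : ℤ) ^ n ∣ c → (2 : ℤ) ∣ b → (2 : ℤ) ∣ c →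
      EqC (act a b c d (half I)) (eps a b c d • half I) := by
    intro a b c d hd hc b2 c2
    rw [eps_id b2 c2, one_smul]
    exact even_case h a b c d hd hP hc b2 c2
  have s1 : ∀ a b c d : ℤ, a * d - b * c = 1 → (p : ℤ) ^ n ∣ c → (2 : ℤ) ∣ c →
      EqC (act a b c d (half I)) (eps a b c d • half I) := by
    intro a b c d hd hc c2
    by_cases b2 : (2 : ℤ) ∣ b
    · exact base a b c d hd hc b2 c2
    · refine step_T hT a b c d hd (base a (b - a) c (d - c) (by linear_combination hd) hc ?_ c2)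
      have ha : ¬ (2 : ℤ) ∣ a := by
        intro ha
        have : (2 : ℤ) ∣ 1 := by rw [← hd]; exact dvd_sub (ha.mul_right d) (c2.mul_left b)
        exact absurd this (by decide)
      omega
  have s2 : ∀ a b c d : ℤ, a * d - b * c = 1 → (p : ℤ) ^ n ∣ c → ¬ (2 : ℤ) ∣ d →
      EqC (act a b c d (half I)) (eps a b c d • half I) := by
    intro a b c d hd hc d2
    by_cases c2 : (2 : ℤ) ∣ c
    · exact s1 a b c d hd hc c2
    · refine step_S hP hS a b c d hd (s1 _ _ _ _ (by linear_combination hd)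
        (dvd_sub hc (Dvd.intro_left d rfl)) ?_)
      obtain ⟨k, hk⟩ := hP
      rw [hk]
      obtain ⟨c', hc'⟩ : ∃ c', c = 2 * c' + 1 := ⟨c / 2, by omega⟩
      obtain ⟨d', hd'⟩ : ∃ d', d = 2 * d' + 1 := ⟨d / 2, by omega⟩
      rw [hc', hd']
      exact ⟨c' - 2 * d' * k - d' - k, by ring⟩
  intro a b c d hd _ hc
  by_cases d2 : (2 : ℤ) ∣ d
  · refine step_T hT a b c d hd (s2 _ _ _ _ (by linear_combination hd) hc ?_)
    have hc2 : ¬ (2 : ℤ) ∣ c := by
      intro hc2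
      have : (2 : ℤ) ∣ 1 := by rw [← hd]; exact dvd_sub (d2.mul_left a) (hc2.mul_left b)
      exact absurd this (by decide)
    omega
  · exact s2 a b c d hd hc d2

/-- The Fricke involution. -/
theorem fricke_half {P : ℤ} (hP : P ≠ 0) {I : ℤ → ℤ → ℂ} (h : PotRel (4 * P) I) :
    EqC (act 0 (-1) P 0 (half I)) (-half I) := by
  obtain ⟨C, hC⟩ := h.fr
  refine ⟨C, fun p q hpq => ?_⟩
  have e := hC p (2 * q) (two_or hpq)
  simp only [act, half, Pi.neg_apply] at e ⊢
  have hne : (-q ≠ 0 ∨ 2 * (P * p) ≠ 0) := by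
    rcases hpq with h0 | h0
    · exact Or.inr (mul_ne_zero two_ne_zero (mul_ne_zero hP h0))
    · exact Or.inl (neg_ne_zero.mpr h0)
  have h1 := h.hom 2 (-q) (2 * (P * p)) two_ne_zero hne
  have e1 : 0 * p + -1 * (2 * q) = 2 * -q := by ring
  have e2 : 4 * P * p + 0 * (2 * q) = 2 * (2 * (P * p)) := by ring
  have e3 : 0 * p + -1 * q = -q := by ring
  have e4 : 2 * (P * p + 0 * q) = 2 * (P * p) := by ring
  rw [e1, e2, h1] at e
  rw [e3, e4, e]

theorem tS_half {p : ℕ} {I : ℤ → ℤ → ℂ} (hU : Ur p I) :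
    EqC (∑ i ∈ Finset.range p, act (p : ℤ) (2 * i) 0 p (half I)) 0 := by
  refine ⟨0, fun x y hxy => ?_⟩
  have e := hU x (2 * y) (two_or hxy)
  rw [Finset.sum_apply, Finset.sum_apply, Pi.zero_apply, Pi.zero_apply, add_zero, ← e]
  refine Finset.sum_congr rfl fun i _ => ?_
  simp only [act, half]
  congr 1 <;> ring

theorem sS_half {p n : ℕ} {I : ℤ → ℤ → ℂ} (hV : Vr p (4 * (p : ℤ) ^ (n - 1)) I) :
    EqC (∑ i ∈ Finset.range p, act 1 0 (2 * i * (p : ℤ) ^ (n - 1)) 1 (half I)) 0 := by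
  obtain ⟨C, hC⟩ := hV
  refine ⟨C, fun x y hxy => ?_⟩
  have e := hC x (2 * y) (two_or hxy)
  rw [Finset.sum_apply, Finset.sum_apply, Pi.zero_apply, Pi.zero_apply, zero_add, ← e]
  refine Finset.sum_congr rfl fun i _ => ?_
  simp only [act, half]
  congr 1 <;> ring

theorem Tl_half {I : ℤ → ℤ → ℂ} (l : ℕ) (lam : ℂ)
    (hT : ∀ p q : ℤ, (p ≠ 0 ∨ q ≠ 0) → Tl l 1 I p q = lam * I p q) :
    ∀ p q : ℤ, (p ≠ 0 ∨ q ≠ 0) → Tl l 2 (half I) p q = lam * half I p q := by
  intro p q hpq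
  have e := hT p (2 * q) (two_or hpq)
  simp only [half, ← e, Tl]
  congr 1
  refine Finset.sum_congr rfl fun j _ => ?_
  congr 1 <;> ring

/-- All relations of the twisted symbol. -/
theorem newSymE_of {p n : ℕ} (hp : Odd p) (hp0 : 0 < p) {I : ℤ → ℤ → ℂ}
    (h : PotRel (4 * (p : ℤ) ^ n) I) (hU2 : Ur 2 I) (hV2 : Vr 2 (2 * (p : ℤ) ^ n) I) (hU : Ur p I)
    (hV : Vr p (4 * (p : ℤ) ^ (n - 1)) I) : NewSymE p n (half (evn I)) := by
  have hP : ((p : ℤ) ^ n) ≠ 0 := pow_ne_zero _ (by exact_mod_cast hp0.ne')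
  have hN : 4 * (p : ℤ) ^ n ≠ 0 := mul_ne_zero (by norm_num) hP
  have h' := h.evn hN
  refine ⟨symE_half hp h' (hU2.evn h (by norm_num)) hV2.evn, tS_half (hU.evn h hp0), sS_half hV.evn,
    fricke_half hP h', 0, ?_⟩
  intro x y _
  simp only [act, half]
  have f1 : -1 * x + 0 * y = -x := by ring
  have f2 : 2 * (0 * x + 1 * y) = 2 * y := by ring
  rw [f1, f2, evn_even, add_zero]

end Pool.Agent.Helper28.TL
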