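import Pool.Agent.Helper28.TL.Defs
import Pool.Agent.Helper28.TL.M_Half
import Pool.Agent.Helper14.CV.StA
import Pool.Agent.Helper10.CV.M_A1b
import Pool.Agent.Helper10.WK.M_KP4
import Pool.Agent.Helper22.WK.M_KN2
import Pool.Agent.Helper22.WK.M_KP6
import Pool.Agent.Helper32.WK.M_KMod
import Pool.Agent.Helper38.CV.M_A6a
import Pool.Agent.Helper43.WK.M_KA8
import Pool.Agent.Helper53.WK.M_KP2
import Pool.Agent.Helper6.WK.M_KE
import Pool.Agent.Helper62.WK.M_KH3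
import Pool.Agent.Helper63.WK.M_KA1
import Pool.Agent.Helper66.WK.M_KP5
import Pool.Agent.Helper69.WK.M_KP1
import Pool.Agent.Helper7.CV.M_A1
import Pool.Agent.Helper10.CV.M_N1
import Pool.Agent.Helper7.WK.M_KN3
import Pool.Agent.Helper72.CV.M_A3
import Pool.Agent.Helper79.CV.M_A6b
import Pool.Agent.Helper79.WK.M_KH1
import Pool.Agent.Helper80.WK.M_KA3
import Pool.Agent.Helper83.WK.M_KA4
import Pool.Agent.Helper86.WK.M_KA5
import Pool.Agent.Helper87.CV.M_P12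
import Pool.Agent.Helper92.WK.M_KA1b
import Pool.Agent.Helper96.CV.M_A6
import Pool.Agent.Helper99.WK.M_KH2

/-!
# Project TL: from the core to the theorem in weight `2`, levels `4 p^n`

`finalE`: if every new twisted symbol of level `p^n` (`p` odd, `n ≥ 2`) with `W = -1`, `* = +1` which is
killed by all words in the `T_l` is constant, then `L(1/2, f) ≠ 0` for every newform `f` of weight `2`,
level `4 p^n`, trivial character and root number `+1`.
-/

set_option autoImplicit false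

open UpperHalfPlane CongruenceSubgroup
open scoped MatrixGroups

namespace Pool.Agent.Helper28.TL

open Pool.Agent.Helper14.CV (Homog EqC act Tl G0)
open Pool.Agent.Helper28.WK (Tw evw pr cp WT)
open Pool.Agent.Helper14.WK
open Pool.Agent.Helper4.TL

/-- The content of the core: level `p^n`. -/
def CoreE (p n : ℕ) : Prop := ∀ G : ℤ → ℤ → ℂ, NewSymE p n G →
  (∀ ls : List ℕ, OkE p ls → evw 2 ls G = 0) → EqC G 0

private lemma Tl_congr {H K : ℤ → ℤ → ℂ} (l : ℕ) (hl : 0 < l)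
    (h : ∀ p q : ℤ, (p ≠ 0 ∨ q ≠ 0) → H p q = K p q) :
    ∀ p q : ℤ, (p ≠ 0 ∨ q ≠ 0) → Tl l 2 H p q = Tl l 2 K p q := by
  intro p q hpq
  have hl0 : (l : ℤ) ≠ 0 := by exact_mod_cast hl.ne'
  simp only [Tl]
  have n1 : ((l : ℤ) * p ≠ 0 ∨ q ≠ 0) := by
    rcases hpq with h0 | h0
    · exact Or.inl (mul_ne_zero hl0 h0)
    · exact Or.inr h0
  rw [h _ _ n1]
  congr 1
  refine Finset.sum_congr rfl ?_
  intro j _
  apply h
  by_cases hq : q = 0
  · left
    rcases hpq with h0 | h0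
    · rw [hq, mul_zero, add_zero]
      exact h0
    · exact absurd hq h0
  · exact Or.inr (mul_ne_zero hl0 hq)

private lemma Tl_smul {H : ℤ → ℤ → ℂ} (l : ℕ) (c : ℂ) (p q : ℤ) :
    Tl l 2 (fun p q => c * H p q) p q = c * Tl l 2 H p q := by
  simp only [Tl]
  rw [mul_add, Finset.mul_sum]

private lemma Tl_step {K : ℤ → ℤ → ℂ} (l : ℕ) (hl : 0 < l) (lam : ℂ)
    (hT : ∀ p q : ℤ, (p ≠ 0 ∨ q ≠ 0) → Tl l 2 K p q = lam * K p q) (c : ℂ)
    {H : ℤ → ℤ → ℂ} (hH : ∀ p q : ℤ, (p ≠ 0 ∨ q ≠ 0) → H p q = c * K p q) :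
    ∀ p q : ℤ, (p ≠ 0 ∨ q ≠ 0) → Tl l 2 H p q = lam * c * K p q := by
  intro p q hpq
  have e1 := Tl_congr l hl (H := H) (K := fun p q => c * K p q) hH p q hpq
  rw [e1, Tl_smul, hT p q hpq]
  ring

/-- A word acts on a common eigenvector by a scalar. -/
theorem Tw_scalar {r : ℕ} {K : ℤ → ℤ → ℂ}
    (hT : ∀ l : ℕ, l.Prime → l ≠ r → l ≠ 2 → ∃ lam : ℂ, ∀ p q : ℤ, (p ≠ 0 ∨ q ≠ 0) →
      Tl l 2 K p q = lam * K p q) (ls : List ℕ) (hls : OkE r ls) :
    ∃ c : ℂ, ∀ p q : ℤ, (p ≠ 0 ∨ q ≠ 0) → Tw 2 ls K p q = c * K p q := by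
  induction ls with
  | nil => exact ⟨1, fun p q _ => (one_mul _).symm⟩
  | cons l ls ih =>
    obtain ⟨c, hc⟩ := ih fun x hx => hls x (List.mem_cons_of_mem _ hx)
    obtain ⟨h1, h2, h3⟩ := hls l List.mem_cons_self
    obtain ⟨lam, hlam⟩ := hT l h1 h2 h3
    exact ⟨lam * c, Tl_step l h1.pos lam hlam c hc⟩

private lemma mp_zero (a b c d : ℤ) : mp 0 a b c d 0 = 1 := by
  simp [mp]

private lemma pr_one (I : ℤ → ℤ → ℕ → ℂ) : pr I 1 = cp I 0 := by
  rw [← Pool.Agent.Helper28.WK.pr_X_pow I 0, pow_zero]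

/-- The relations of the potential of a newform `f` of weight `2` and level `N` with root number `+1`. -/
theorem potRel_of (N : ℕ) (hne : NeZero N) (hk : 0 < (2 * ((0 : ℕ) : ℤ) + 2 : ℤ))
    (f : CuspForm (G0 N) (2 * ((0 : ℕ) : ℤ) + 2)) (hR : RootOneK hk f) (I : ℤ → ℤ → ℕ → ℂ)
    (hI : IsPotK 0 f I) : PotRel N (cp I 0) := by
  have ke := Pool.Agent.Helper6.WK.hKE Pool.Agent.Helper63.WK.hKA1
  have ka3 := Pool.Agent.Helper80.WK.hKA3 ke
  have kp1 := Pool.Agent.Helper69.WK.hKP1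
  have kp2 := Pool.Agent.Helper53.WK.hKP2 ka3 kp1
  have kp4 := Pool.Agent.Helper10.WK.hKP4 kp2
  have ka8 := Pool.Agent.Helper43.WK.hKA8 Pool.Agent.Helper63.WK.hKA1
  refine ⟨kp1 N hne 0 f I hI 0 le_rfl, ?_, kp4 N hne 0 f I hI (ka8 N hne 0 hk f hR)⟩
  intro a b c d hdet hc
  obtain ⟨C, hC⟩ := kp2 N hne 0 f I a b c d 1 hI (by rw [hdet]; exact one_pos)
    (fun z hz => by
      rw [one_mul]
      exact Pool.Agent.Helper32.WK.hKMod N hne 0 f a b c d hdet hc z hz) 0 le_rfl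
  refine ⟨C, fun p q hpq => ?_⟩
  have := hC p q hpq
  rw [mp_zero, pr_one, hdet, Int.cast_one, one_mul, one_mul] at this
  exact this

/-- The relations at a prime `q` whose square divides the level `K = q M`. -/
theorem UV_of (q M : ℕ) (hq : q.Prime) (hqM : q ∣ M) (hM : M ≠ 0) (K : ℕ) (hK : K = q * M)
    (hne : NeZero K) (hk : 0 < (2 * ((0 : ℕ) : ℤ) + 2 : ℤ))
    (f : CuspForm (G0 K) (2 * ((0 : ℕ) : ℤ) + 2)) (hf : IsNewN f) (hR : RootOneK hk f)
    (I : ℤ → ℤ → ℕ → ℂ) (hI : IsPotK 0 f I) : Ur q (cp I 0) ∧ Vr q M (cp I 0) := by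
  have ka1 := Pool.Agent.Helper63.WK.hKA1
  have kb := Pool.Agent.Helper92.WK.hKA1b ka1
  have ke := Pool.Agent.Helper6.WK.hKE ka1
  have kp1 := Pool.Agent.Helper69.WK.hKP1
  have kh1 := Pool.Agent.Helper79.WK.hKH1 ka1
  have kmod := Pool.Agent.Helper32.WK.hKMod
  have ka8 := Pool.Agent.Helper43.WK.hKA8 ka1
  have kn3 := Pool.Agent.Helper7.WK.hKN3 kh1 kmod Pool.Agent.Helper10.CV.hN1
  have kp5 := Pool.Agent.Helper66.WK.hKP5 ke kb kp1
  have kp6 := Pool.Agent.Helper22.WK.hKP6 ke kp1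
  have hA := trace_zero Pool.Agent.Helper22.WK.hKN2 kn3 q M hq hqM hM 0 K hK f hf
  have hB := shift_zero ka8 q M hq hM 0 K hK hk f hA hR
  constructor
  · intro p' q' hpq
    have := kp5 K hne 0 f I q hq.pos hI hB 0 le_rfl p' q' hpq
    simp only [pow_zero, pr_one] at this
    exact this
  · obtain ⟨C, hC⟩ := kp6 K hne 0 f I q M hI hA 0 le_rfl
    refine ⟨C, fun p' q' hpq => ?_⟩
    have := hC p' q' hpq
    simp only [mp_zero, pr_one] at this
    exact this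

/-! ### Weight `2` as the case `A = 0` -/

private lemma LanK_eq {N : ℕ} [NeZero N] {k : ℤ} (hk : 0 < k) (h2 : k = 2)
    (f : CuspForm (G0 N) k) (g : CuspForm (G0 N) 2) (hfg : HEq f g) (s : ℂ) :
    LanK hk f s = Pool.Agent.Helper14.CV.Lan g s := by
  subst h2
  obtain rfl := eq_of_heq hfg
  have e : (((2 : ℤ) : ℂ) - 1) / 2 = 1 / 2 := by norm_num
  unfold LanK Pool.Agent.Helper14.CV.Lan
  rw [e]

private lemma RootOneK_of {N : ℕ} [NeZero N] {k : ℤ} (hk : 0 < k) (h2 : k = 2)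
    (f : CuspForm (G0 N) k) (g : CuspForm (G0 N) 2) (hfg : HEq f g)
    (h : Pool.Agent.Helper14.CV.RootOne g) : RootOneK hk f := by
  have hL := LanK_eq hk h2 f g hfg
  subst h2
  intro s h1 h3
  have e : (((2 : ℤ) : ℂ) - 1) / 2 = 1 / 2 := by norm_num
  have a1 : (-1 / 2 : ℝ) < s.re := by
    have : (-(((2 : ℤ) : ℝ) - 1) / 2 : ℝ) = -1 / 2 := by norm_num
    rw [← this]
    exact h1
  have a2 : s.re < (3 / 2 : ℝ) := by
    have : ((((2 : ℤ) : ℝ) + 1) / 2 : ℝ) = 3 / 2 := by norm_num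
    rw [← this]
    exact h3
  have := h s a1 a2
  unfold Pool.Agent.Helper14.CV.Lam at this
  unfold LamK
  rw [e, hL, hL]
  exact this

private lemma Fp_eq {N : ℕ} (f : CuspForm (G0 N) 2) (z : ℂ) :
    Pool.Agent.Helper14.CV.Fp f z = 2 * Real.pi * Complex.I * EK f 0 z := by
  have hpi : (2 * Real.pi * Complex.I : ℂ) ≠ 0 := Complex.two_pi_I_ne_zero
  unfold EK Pool.Agent.Helper14.CV.Fp
  rw [Finset.sum_range_one, pow_zero, Nat.descFactorial_zero, Nat.cast_one, Nat.sub_zero,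
    pow_zero, one_mul, one_mul, one_mul]
  unfold FpK
  rw [← tsum_mul_left]
  refine tsum_congr fun m => ?_
  have e : Pool.Agent.Helper14.CV.fc f m = fcK f m := rfl
  rw [e, zero_add, pow_one]
  by_cases hm : (m : ℂ) = 0
  · rw [hm]
    simp
  · field_simp

private lemma fc_zero {N : ℕ} (m : ℕ) :
    Pool.Agent.Helper14.CV.fc (0 : CuspForm (G0 N) 2) m = 0 := by
  unfold Pool.Agent.Helper14.CV.fc
  rw [FunLike.coe_zero]
  simp [UpperHalfPlane.qExpansion_zero]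

/-- If the central value is zero, the twisted symbol of `f` is killed by all words; if it is constant,
`f = 0`. For all `n ≥ 0` (the relations at `p` are there for `n ≥ 2` only). -/
theorem finalG (p n : ℕ) (hp : p.Prime) (hp2 : p ≠ 2)
    (core : ∀ G : ℤ → ℤ → ℂ, SymE p 0 n G → EqC (act 0 (-1) ((p : ℤ) ^ n) 0 G) (-G) →
      EqC (act (-1) 0 0 1 G) G → (2 ≤ n → NewSymE p n G) →
      (∀ ls : List ℕ, OkE p ls → evw 2 ls G = 0) → EqC G 0) [NeZero (4 * p ^ n)]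
    (f : CuspForm (G0 (4 * p ^ n)) 2) (hf : IsNewN f) (hR : Pool.Agent.Helper14.CV.RootOne f) :
    Pool.Agent.Helper14.CV.Lan f (1 / 2) ≠ 0 := by
  intro hL
  have hk : 0 < (2 * ((0 : ℕ) : ℤ) + 2 : ℤ) := by norm_num
  have h2 : (2 * ((0 : ℕ) : ℤ) + 2 : ℤ) = 2 := by norm_num
  have hfp : ∃ f' : CuspForm (G0 (4 * p ^ n)) (2 * ((0 : ℕ) : ℤ) + 2),
      HEq f' f ∧ IsNewN f' ∧ (∀ j z, EK f' j z = EK f j z) :=
    ⟨f, HEq.rfl, hf, fun _ _ => rfl⟩
  obtain ⟨f', hff, hf', hE⟩ := hfp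
  have hR' : RootOneK hk f' := RootOneK_of hk h2 f' f hff hR
  have hL' : LanK hk f' (1 / 2) = 0 := by
    rw [LanK_eq hk h2 f' f hff]
    exact hL
  have ka1 := Pool.Agent.Helper63.WK.hKA1
  have kb := Pool.Agent.Helper92.WK.hKA1b ka1
  have ke := Pool.Agent.Helper6.WK.hKE ka1
  have ka4 := Pool.Agent.Helper83.WK.hKA4 ka1 kb ke
  have ka5 := Pool.Agent.Helper86.WK.hKA5 ka1 kb ke
  have kh1 := Pool.Agent.Helper79.WK.hKH1 ka1
  have kh2 := Pool.Agent.Helper99.WK.hKH2 kh1 ke kb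
  have kh3 := Pool.Agent.Helper62.WK.hKH3 kh2 Pool.Agent.Helper69.WK.hKP1
  obtain ⟨I, hI, hI0⟩ := ka4 (4 * p ^ n) inferInstance 0 f'
  have hrel := potRel_of (4 * p ^ n) inferInstance hk f' hR' I hI
  have ecast : ((4 * p ^ n : ℕ) : ℤ) = 4 * (p : ℤ) ^ n := by push_cast; ring
  rw [ecast] at hrel
  have hp0 : p ^ (n - 1) ≠ 0 := pow_ne_zero _ hp.ne_zero
  have uv2 := UV_of 2 (2 * p ^ n) Nat.prime_two (dvd_mul_right _ _)
    (mul_ne_zero two_ne_zero (pow_ne_zero _ hp.ne_zero)) (4 * p ^ n) (by ring) inferInstance hk f' hf' hR' I hI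
  have uvp := fun hn : 2 ≤ n => UV_of p (4 * p ^ (n - 1)) hp ((dvd_pow_self p (by omega)).mul_left 4)
    (mul_ne_zero (by norm_num) hp0) (4 * p ^ n) (by
      obtain ⟨m, rfl⟩ : ∃ m, n = m + 1 := ⟨n - 1, by omega⟩
      rw [Nat.add_sub_cancel, pow_succ]
      ring) inferInstance hk f' hf' hR' I hI
  have e2 : ((2 * p ^ n : ℕ) : ℤ) = 2 * (p : ℤ) ^ n := by push_cast; ring
  have e3 : ((4 * p ^ (n - 1) : ℕ) : ℤ) = 4 * (p : ℤ) ^ (n - 1) := by push_cast; ring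
  have hodd : Odd p := hp.odd_of_ne_two hp2
  have hNew : 2 ≤ n → NewSymE p n (half (evn (cp I 0))) := fun hn =>
    newSymE_of hodd hp.pos hrel uv2.1 (e2 ▸ uv2.2) (uvp hn).1 (e3 ▸ (uvp hn).2)
  have hPn : ((p : ℤ) ^ n) ≠ 0 := pow_ne_zero _ (by exact_mod_cast hp.ne_zero)
  have hrel' := hrel.evn (mul_ne_zero (by norm_num) hPn)
  have hSy : SymE p 0 n (half (evn (cp I 0))) :=
    symE_half hodd hrel' (uv2.1.evn hrel (by norm_num)) (Vr.evn (e2 ▸ uv2.2))
  have hFr := fricke_half hPn hrel'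
  have hSt : EqC (act (-1) 0 0 1 (half (evn (cp I 0)))) (half (evn (cp I 0))) := by
    refine ⟨0, fun x y _ => ?_⟩
    simp only [act, half]
    have f1 : -1 * x + 0 * y = -x := by ring
    have f2 : 2 * (0 * x + 1 * y) = 2 * y := by ring
    rw [f1, f2, evn_even, add_zero]
  have hHk : ∀ l : ℕ, l.Prime → l ≠ p → l ≠ 2 → ∃ lam : ℂ, ∀ x y : ℤ, (x ≠ 0 ∨ y ≠ 0) →
      Tl l 2 (half (evn (cp I 0))) x y = lam * half (evn (cp I 0)) x y := by
    intro l hl hlp hl2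
    have hlN : ¬ l ∣ 4 * p ^ n := by
      intro h
      rcases (Nat.Prime.dvd_mul hl).1 h with h | h
      · have : l ∣ 2 ^ 2 := by simpa using h
        exact hl2 ((Nat.prime_dvd_prime_iff_eq hl Nat.prime_two).1 (hl.dvd_of_dvd_pow this))
      · exact hlp ((Nat.prime_dvd_prime_iff_eq hl hp).1 (hl.dvd_of_dvd_pow h))
    refine ⟨fcK f' l, Tl_half l _ (Tl_evn hrel l hl.pos _ ?_)⟩
    intro x y hxy
    have := kh3 (4 * p ^ n) inferInstance 0 f' I l (fcK f' l) 1 hI hl.pos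
      (hf'.hecke l hl hlN) isCoprime_one_left 0 le_rfl x y hxy
    simp only [WT, pow_zero, pr_one, Nat.mul_zero, Nat.sub_self, one_smul] at this
    simp only [Tl]
    rw [add_comm]
    exact this
  have hG10 : cp I 0 (-1) 0 = cp I 0 1 0 := by
    have := hrel.hom (-1) 1 0 (by norm_num) (Or.inl one_ne_zero)
    simpa using this
  have h10 : cp I 0 1 0 = 0 := hI0 0 le_rfl
  have h01 : cp I 0 0 1 = 0 := ka5 (4 * p ^ n) inferInstance 0 hk f' I hI hL'
  have h02 : cp I 0 0 2 = 0 := by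
    have := hrel.hom 2 0 1 two_ne_zero (Or.inr one_ne_zero)
    simp only [mul_zero, mul_one] at this
    rw [this, h01]
  have hev : ∀ ls : List ℕ, OkE p ls → evw 2 ls (half (evn (cp I 0))) = 0 := by
    intro ls hls
    obtain ⟨c, hc⟩ := Tw_scalar hHk ls hls
    unfold evw
    rw [hc 1 0 (Or.inl one_ne_zero), hc 0 1 (Or.inr one_ne_zero)]
    simp only [half, evn, neg_zero, mul_zero, mul_one]
    rw [hG10, h02, h10]
    ring
  obtain ⟨c, hc⟩ := core _ hSy hFr hSt hNew hev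
  have hPot : Pool.Agent.Helper14.CV.IsPot f
      (fun x y => 2 * Real.pi * Complex.I * cp I 0 x y) := by
    intro a b c d hdet x
    have := (hI a b c d hdet 0 le_rfl x).const_mul (2 * Real.pi * Complex.I)
    simp only [hE] at this
    simp only [Fp_eq]
    exact this
  have a1 := Pool.Agent.Helper7.CV.hA1
  have a1b := Pool.Agent.Helper10.CV.hA1b a1
  have a3 := Pool.Agent.Helper72.CV.hA3 a1
  have p1 := Pool.Agent.Helper87.CV.hP1
  have a6 := Pool.Agent.Helper96.CV.hA6 a1 a1b a3 Pool.Agent.Helper38.CV.hA6a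
    (Pool.Agent.Helper79.CV.hA6b a1) p1
  have hf0 : f = 0 := by
    refine a6 (4 * p ^ n) inferInstance f _ (2 * Real.pi * Complex.I * c) hPot ?_
    intro x y hxy
    have hne : (2 * x ≠ 0 ∨ y ≠ 0) := by
      rcases hxy with h | h
      · exact Or.inl (mul_ne_zero two_ne_zero h)
      · exact Or.inr h
    have e := hc (2 * x) y hne
    simp only [half, evn, Pi.zero_apply, zero_add] at e
    have n1 := hrel.hom 2 x y two_ne_zero hxy
    have n2 := hrel.hom 2 (-x) y two_ne_zero (by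
      rcases hxy with h | h
      · exact Or.inl (neg_ne_zero.mpr h)
      · exact Or.inr h)
    have n3 : -(2 * x) = 2 * -x := by ring
    rw [n3, n1, n2] at e
    rw [← mul_add, e]
  have h1 : Pool.Agent.Helper14.CV.fc f 1 = 1 := hf.normalised
  rw [hf0, fc_zero] at h1
  exact zero_ne_one h1

/-- Levels `4 p^n`, `n ≥ 2`. -/
theorem finalE (p n : ℕ) (hp : p.Prime) (hp2 : p ≠ 2) (hn : 2 ≤ n) (core : CoreE p n) [NeZero (4 * p ^ n)]
    (f : CuspForm (G0 (4 * p ^ n)) 2) (hf : IsNewN f) (hR : Pool.Agent.Helper14.CV.RootOne f) :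
    Pool.Agent.Helper14.CV.Lan f (1 / 2) ≠ 0 :=
  finalG p n hp hp2 (fun G _ _ _ h ev => core G (h hn) ev) f hf hR

/-- The content of the core for `n ≤ 1`. -/
def CoreS (p n : ℕ) : Prop := ∀ G : ℤ → ℤ → ℂ, SymE p 0 n G → EqC (act 0 (-1) ((p : ℤ) ^ n) 0 G) (-G) →
  EqC (act (-1) 0 0 1 G) G → (∀ ls : List ℕ, OkE p ls → evw 2 ls G = 0) → EqC G 0

/-- Any level `4 p^n` without the relations at `p` (to be used for `n ≤ 1`). -/
theorem finalS (p n : ℕ) (hp : p.Prime) (hp2 : p ≠ 2) (core : CoreS p n) [NeZero (4 * p ^ n)]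
    (f : CuspForm (G0 (4 * p ^ n)) 2) (hf : IsNewN f) (hR : Pool.Agent.Helper14.CV.RootOne f) :
    Pool.Agent.Helper14.CV.Lan f (1 / 2) ≠ 0 :=
  finalG p n hp hp2 (fun G h1 h2 h3 _ ev => core G h1 h2 h3 ev) f hf hR

end Pool.Agent.Helper28.TL
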