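import Pool.Agent.Helper28.TL.StW
import Pool.Agent.Helper28.LV.StL

/-!
# Project TL, low levels `4 p^n`, `n = 0, 1, 2`, in the weights `2a+2 ≥ 4`: statements

The statements of `Helper28/LV/StL.lean` (project LV) with the sign character `eps` of `Helper4/TL/Eps.lean`. For `n = 0, 1` the coordinate is `x = 2z`, the group `{(α β; γ δ) | p^n ∣ γ}`, the Fricke
matrix `(0 -1; p^n 0)`. `u = (p 0; 0 1)`, `n(b) = (1 b; 0 1)`, `n'(c) = (1 0; c 1)`, `S = (0 -1; 1 0)`, `eps S = -1`. `D` is a pair of nonzero vectors `(v, w)`, `H(D) = H(w) - H(v)`, `gD = (gv, gw)`. Translations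
are even (`eps = 1`). Everywhere `p ≠ 2`; `RgT`, `RgU`, `EG`, `AV`, `Rg`, `EGf` of project LV are used unchanged.
-/

set_option autoImplicit false

open Pool.Agent.Helper14.CV

namespace Pool.Agent.Helper28.TL

open Pool.Agent.Helper28.WK
open Pool.Agent.Helper28.LV
open Pool.Agent.Helper4.TL
open Pool.Agent.Helper79.TL (UIpE)

/-- Twisted symbols of weight `2a+2` and level `4 p^n` in the coordinate `2z` (no trace condition at `p`), with central component anti-invariant under the Fricke involution (`fr`) and invariant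
under `*` (`st`), and killed by all Hecke words applied to the central path (`hk`). Compare `WSN` of project LV and `WSymE`. -/
structure WSNE {R : Type} [AddCommGroup R] (p a n : ℕ) (Φ : ℤ → ℤ → ℕ → R) : Prop where
  hom : ∀ i : ℕ, i ≤ 2 * a → Homog (cp Φ i)
  eqv : ∀ α β γ δ : ℤ, α * δ - β * γ = 1 → (p : ℤ) ^ n ∣ γ → ∀ i : ℕ, i ≤ 2 * a →
    EqC (act α β γ δ (cp Φ i)) (eps α β γ δ • pr Φ ((Polynomial.C α * Polynomial.X + Polynomial.C β) ^ i *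
      (Polynomial.C γ * Polynomial.X + Polynomial.C δ) ^ (2 * a - i)))
  fr : EqC (act 0 (-1) ((p : ℤ) ^ n) 0 (cp Φ a)) (-(cp Φ a))
  st : EqC (act (-1) 0 0 1 (cp Φ a)) (cp Φ a)
  hk : ∀ M : ℕ, 1 ≤ M → ∀ ls : List ℕ, OkE p ls →
    WTw a (2 * (p : ℤ) ^ M) ls Φ 1 0 a = WTw a (2 * (p : ℤ) ^ M) ls Φ 0 1 a

/-- LMAP-E. Additive maps (model Pool/Agent/Helper54/LV/M_LMap.lean, `StLMap`). -/
def VLMap : Prop := ∀ (p a n : ℕ), p ≠ 0 → ∀ (R S : Type) (_ : AddCommGroup R) (_ : AddCommGroup S)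
  (lam : R →+ S) (Φ : ℤ → ℤ → ℕ → R),
  (WSNE p a n Φ → WSNE p a n (fun x y i => lam (Φ x y i))) ∧
  (Function.Injective lam → WSNE p a n (fun x y i => lam (Φ x y i)) → WSNE p a n Φ) ∧
  ∀ Φ' : ℤ → ℤ → ℕ → R, (∀ i : ℕ, i ≤ 2 * a → EqC (cp Φ' i) (cp Φ i)) → WSNE p a n Φ →
    WSNE p a n Φ'

/-- LDEN-E. Bounded denominators (model Pool/Agent/Helper62/LV/M_LDen.lean, `StLDen`; the sign does not change integrality). -/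
def VLDen : Prop := StFar → VLMap → ∀ (p a n : ℕ) (Φ : ℤ → ℤ → ℕ → ℚ), p.Prime → WSNE p a n Φ →
  ∃ (N : ℤ) (Ψ : ℤ → ℤ → ℕ → ℤ), N ≠ 0 ∧ WSNE p a n Ψ ∧
    ∀ i : ℕ, i ≤ 2 * a → EqC (fun x y => ((Ψ x y i : ℤ) : ℚ)) (N • cp Φ i)

/-- LQC-E. From `ℤ_p` to `ℂ` (model Pool/Agent/Helper67/LV/M_LQC.lean, `StLQC`). -/
def VLQC : Prop := StFar → VLMap → VLDen → ∀ (p : ℕ) (_ : Fact p.Prime) (a n : ℕ),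
  (∀ Φ : ℤ → ℤ → ℕ → ℤ_[p], WSNE p a n Φ → EqC (cp Φ a) 0) →
  ∀ Φ : ℤ → ℤ → ℕ → ℂ, WSNE p a n Φ → EqC (cp Φ a) 0

/-- LW1-E (model Pool/Agent/Helper4/LV/M_LW1.lean, `StLW1`, and `SEW1`). -/
def VLW1 : Prop := ∀ (p : ℕ) (_ : Fact p.Prime) (a n : ℕ) (Φ : ℤ → ℤ → ℕ → ℤ_[p]),
  WSNE p a n Φ → ∀ M : ℕ, 1 ≤ M → SymE p M (M + n) (redP M (cp Φ a))

/-- LW2-E (model Pool/Agent/Helper61/LV/M_LW2.lean, `StLW2`, and Pool/Agent/Helper28/TLW/M_W2.lean): even `h`, `c`. -/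
def VLW2 : Prop := ∀ (p : ℕ) (_ : Fact p.Prime) (a n : ℕ) (Φ : ℤ → ℤ → ℕ → ℤ_[p]),
  WSNE p a n Φ → (∀ h : ℤ, 2 ∣ h → EqC (Nb a h (cp Φ a)) 0) ∧
    (∀ c : ℤ, 2 * (p : ℤ) ^ n ∣ c → EqC (Nc a c (cp Φ a)) 0)

/-- LW4-E (model Pool/Agent/Helper60/LV/M_LW4.lean, `StLW4`, and `SEW4`; only `hk` is used). -/
def VLW4 : Prop := ∀ (p : ℕ) (_ : Fact p.Prime) (a n : ℕ) (Φ : ℤ → ℤ → ℕ → ℤ_[p]),
  WSNE p a n Φ → ∀ M : ℕ, 1 ≤ M → ∀ ls : List ℕ, OkE p ls →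
    evw (2 * (p : ℤ) ^ M) ls (redP M (cp Φ a)) = 0

/-- LLA-E. `SELa` without the hypothesis `1 ≤ ν`, for `M ≥ 3` (models Pool/Agent/Helper72/TLW/M_La.lean, Pool/Agent/Helper35/LV/M_LLa.lean). -/
def VLLa : Prop := ∀ (p : ℕ) (_ : Fact p.Prime) (κ : ℤ), p ≠ 2 → TAE p κ →
  ∀ (ν M : ℕ) (g : ℤ → ℤ → ZMod (p ^ M)), 3 ≤ M → SymE p M (M + ν) g →
  EqC (act 0 (-1) ((p : ℤ) ^ ν) 0 g) (-g) → EqC (act (-1) 0 0 1 g) g →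
  (∀ ls : List ℕ, OkE p ls → evw (2 * (p : ℤ) ^ M) ls g = 0) →
  ∃ ψ : ℤ → ℤ → ZMod (p ^ M), SymE p M (M + ν - 1) ψ ∧ EqC (act p 0 0 1 ψ - ψ) (κ • g)

/-- LLB-E. `SELb2` without the hypothesis `1 ≤ ν`, for `M ≥ 3` (models Pool/Agent/Helper86/TLW/M_Lb2.lean, Pool/Agent/Helper26/LV/M_LLb.lean). -/
def VLLb : Prop := VLLa → UIpE → ∀ (p : ℕ) (_ : Fact p.Prime) (κ : ℤ), p ≠ 2 → TAE p κ →
  ∀ (ν : ℕ) (G : ℤ → ℤ → ℤ_[p]),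
  Homog G → (∀ M : ℕ, 3 ≤ M → SymE p M (M + ν) (redP M G)) →
  EqC (act 0 (-1) ((p : ℤ) ^ ν) 0 G) (-G) → EqC (act (-1) 0 0 1 G) G →
  (∀ M : ℕ, 3 ≤ M → ∀ ls : List ℕ, OkE p ls → evw (2 * (p : ℤ) ^ M) ls (redP M G) = 0) →
  ∃ ψ : ℤ → ℤ → ℤ_[p], Homog ψ ∧ (∀ M : ℕ, 3 ≤ M → SymE p M (M + ν - 1) (redP M ψ)) ∧
    EqC (act p 0 0 1 ψ - ψ) ((3 * κ : ℤ) • G)

/-- LPOL-E. Polynomiality in the coordinate `2z` (models Pool/Agent/Helper8/LV/M_LPol.lean, `StLPol`, and Pool/Agent/Helper66/TLW/M_Pol.lean). (i) For even `h` the difference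
`D_h(v, w) = (Nb a h ψ)(w) - (Nb a h ψ)(v)` satisfies `D_h(v, w) = D_{p h}(u v, u w)` (`Nb a h G ≈ 0`), so `D_h(v, w) = D_{p^m h}(u^m v, u^m w)`, which is `0` modulo `p^M` for `m ≥ M ≥ 3` (`n(j p^m h)` is an even matrix in
the group of level `(M, M+n-1)`). (ii) `2 p^n ∣ c`, `θ = ψ∘u`: as in `StLPol`. -/
def VLPol : Prop := ∀ (p : ℕ) (_ : Fact p.Prime) (κ : ℤ) (a n : ℕ) (G ψ : ℤ → ℤ → ℤ_[p]), p ≠ 2 →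
  Homog G → Homog ψ → (∀ M : ℕ, 3 ≤ M → SymE p M (M + n - 1) (redP M ψ)) →
  EqC (act p 0 0 1 ψ - ψ) (κ • G) → (∀ h : ℤ, 2 ∣ h → EqC (Nb a h G) 0) →
  (∀ c : ℤ, 2 * (p : ℤ) ^ n ∣ c → EqC (Nc a c G) 0) →
  (∀ h : ℤ, 2 ∣ h → EqC (Nb a h ψ) 0) ∧
    (∀ c : ℤ, 2 * (p : ℤ) ^ n ∣ c → EqC (Nc a c (act p 0 0 1 ψ)) 0)

/-- LPOL2-E. `SEPol` without the hypothesis `1 ≤ ν` and for `M ≥ 3` (models Pool/Agent/Helper66/TLW/M_Pol.lean, Pool/Agent/Helper21/LV/M_LPol2.lean). -/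
def VLPol2 : Prop := ∀ (p : ℕ) (_ : Fact p.Prime) (κ : ℤ) (a ν : ℕ) (G ψ : ℤ → ℤ → ℤ_[p]), p ≠ 2 →
  Homog G → Homog ψ → (∀ M : ℕ, 3 ≤ M → SymE p M (M + ν - 1) (redP M ψ)) →
  EqC (act p 0 0 1 ψ - ψ) (κ • G) → (∀ h : ℤ, 2 * (p : ℤ) ∣ h → EqC (Nb a h G) 0) →
  (∀ c : ℤ, 2 * (p : ℤ) ^ (ν + 1) ∣ c → EqC (Nc a c G) 0) →
  (∀ h : ℤ, 2 ∣ h → EqC (Nb a h (ψ + κ • G)) 0) ∧ (∀ c : ℤ, 2 * (p : ℤ) ^ ν ∣ c → EqC (Nc a c ψ) 0)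

/-- The content of MCG-E. -/
def MCGE : Prop := ∀ (p : ℕ) (_ : Fact p.Prime) (a ν : ℕ) (H : ℤ → ℤ → ℤ_[p]), 1 ≤ ν → Homog H →
  (∀ M : ℕ, 3 ≤ M → SymE p M (M + ν) (redP M H)) → (∀ h : ℤ, 2 ∣ h → EqC (Nb a h H) 0) →
  (∀ c : ℤ, 2 * (p : ℤ) ^ ν ∣ c → EqC (Nc a c H) 0) →
  ∀ v1 v2 w1 w2 : ℤ, (v1 ≠ 0 ∨ v2 ≠ 0) → (w1 ≠ 0 ∨ w2 ≠ 0) →
  ∃ P : ℕ → ℕ → ℚ_[p], ∀ (L : ℕ) (x y c : ℤ), 3 ≤ L →
    (p : ℤ) ^ L ∣ c * (1 - 4 * (p : ℤ) ^ ν * x * y) - y →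
    ‖(1 - 4 * (p : ℚ_[p]) ^ ν * x * y) ^ a *
      ((H (w1 + 2 * x * w2) (2 * (p : ℤ) ^ ν * c * (w1 + 2 * x * w2) + w2) -
        H (v1 + 2 * x * v2) (2 * (p : ℤ) ^ ν * c * (v1 + 2 * x * v2) + v2) : ℤ_[p]) : ℚ_[p]) -
      ∑ i ∈ Finset.range (a + 1), ∑ j ∈ Finset.range (a + 1), P i j * ((x : ℚ_[p]) ^ i * (y : ℚ_[p]) ^ j)‖ ≤
      ((p : ℝ) ^ L)⁻¹

/-- MCG-E. Steps (i), (ii), (iii) of the docstring of `StMC` (project LV) with `n'(2 p^ν c) n(2x)` in place of `n'(p^ν c) n(x)` (model Pool/Agent/Helper7/LV/M_MCG.lean). -/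
def VMCG : Prop := SEGp → StPl1 → SECC → MCGE

/-- The content of MC-E: `eps(g) H(gD)` is a bihomogeneous function along `Γ₀(p^ν)`. -/
def MCE : Prop := ∀ (p : ℕ) (_ : Fact p.Prime) (a ν : ℕ) (H : ℤ → ℤ → ℤ_[p]), p ≠ 2 → 1 ≤ ν → Homog H →
  (∀ M : ℕ, 3 ≤ M → SymE p M (M + ν) (redP M H)) → (∀ h : ℤ, 2 ∣ h → EqC (Nb a h H) 0) →
  (∀ c : ℤ, 2 * (p : ℤ) ^ ν ∣ c → EqC (Nc a c H) 0) →
  ∀ v1 v2 w1 w2 : ℤ, (v1 ≠ 0 ∨ v2 ≠ 0) → (w1 ≠ 0 ∨ w2 ≠ 0) →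
  ∃ F : ℚ_[p] → ℚ_[p] → ℚ_[p] → ℚ_[p] → ℚ_[p], Rg a F ∧ ∀ α β γ δ : ℤ,
    α * δ - β * γ = 1 → (p : ℤ) ^ ν ∣ γ →
    ((((eps α β γ δ : ℤ) : ℤ_[p]) *
      (H (α * w1 + β * w2) (γ * w1 + δ * w2) - H (α * v1 + β * v2) (γ * v1 + δ * v2)) : ℤ_[p]) : ℚ_[p]) =
      F α β γ δ

/-- MC-E (model Pool/Agent/Helper69/LV/M_MC.lean). Step (iv): `F(α,β,γ,δ) = ∑ P_ij 2^(-i-j) p^(-νj) α^(a-i) β^i γ^j δ^(a-j)`. Let `g = (α β; γ δ)`, `αδ - βγ = 1`, `p^ν ∣ γ`, so `α, δ` are prime to `p`. For `L ≥ 3` choose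
integers with `2 α x ≡ β`, `2 δ y ≡ γ/p^ν`, `2 c ≡ α (γ/p^ν)` modulo `p^L` (`p` odd); then `c (1 - 4 p^ν x y) ≡ y` (`1 - βγ/(αδ) = 1/(αδ)`). The matrix `K = g (n'(2p^ν c) n(2x))⁻¹` is congruent to `g` modulo `2`
(`eps K = eps g`: `eps_mod` or `eps_mul`), has upper right entry `β - 2αx`, divisible by `p^L`, and lower left entry `γ (1 + 4p^ν cx) - 2p^ν c δ`, divisible by `p^(L+ν)`, so
`H(g D) ≡ eps(g) H(n'(2p^ν c) n(2x) D)` modulo `p^L`. Then `L → ∞` as in `StMC`. -/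
def VMC : Prop := MCGE → MCE

/-- The content of MS-E. -/
def MSE : Prop := ∀ (p : ℕ) (_ : Fact p.Prime) (a : ℕ) (H : ℤ → ℤ → ℤ_[p]), p ≠ 2 → Homog H →
  (∀ M : ℕ, 3 ≤ M → SymE p M (M + 1) (redP M H)) → (∀ h : ℤ, 2 ∣ h → EqC (Nb a h H) 0) →
  (∀ c : ℤ, 2 ∣ c → EqC (Nc a c H) 0) →
  ∃ F : ℤ → ℤ → ℤ → ℤ → ℚ_[p] → ℚ_[p] → ℚ_[p] → ℚ_[p] → ℚ_[p],
    ∀ v1 v2 w1 w2 : ℤ, (v1 ≠ 0 ∨ v2 ≠ 0) → (w1 ≠ 0 ∨ w2 ≠ 0) → Rg a (F v1 v2 w1 w2) ∧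
    ∀ α β γ δ : ℤ, α * δ - β * γ = 1 →
    ((((eps α β γ δ : ℤ) : ℤ_[p]) *
      (H (α * w1 + β * w2) (γ * w1 + δ * w2) - H (α * v1 + β * v2) (γ * v1 + δ * v2)) : ℤ_[p]) : ℚ_[p]) =
      F v1 v2 w1 w2 α β γ δ

/-- MS-E. The same for the whole group `SL₂(ℤ)` (model Pool/Agent/Helper9/LV/M_MS.lean, `StMS`). `E` = set of integral matrices `g` of determinant one with, for all `D`: `eps(g) H(gD) = F_D(g)`, and for all `x`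
over `ℚ_p` `F_{gD}(x) = eps(g) F_D(x g)`; closed under products. (1) `Γ₀(p) ⊂ E` (MCE with `ν = 1`, RGU). (2) `n'(c)` in `E` for every EVEN `c`: `H(n'(c)D)` is for even `c` a polynomial in `c` (PL1 for `c ↦ H(n'(2c)D)`), agrees
with `F_D(n'(c))` for `2p ∣ c`, so for all even `c`; then as in `StMS` (the matrices are even, `eps(x n'(c)) = eps x`). (3) For odd `c`: `n'(c) = n'(p) n'(c - p)`, `n'(p)` in `Γ₀(p)`, `c - p` even. (4) `SL₂(ℤ)` is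
generated by `n(±1)` and `n'(±1)`. -/
def VMS : Prop := MCE → StPl1 → RgT → RgU → MSE

/-- UIW-E. The involution (model Pool/Agent/Helper90/LV/M_UIW.lean, `StUIW`). `χ = ψ∘W - ψ∘u`, `χ∘u ≈ χ`; modulo `p^M` `χ` is a twisted symbol of level `(M+n+1, M+n+1)`: `u κ = (α pβ; γ/p δ) u`,
`W κ = (δ -γ/p^n; -p^n β α) W`, and `eps` of both matrices is `eps κ` (`p` odd; `eps` depends on the entries modulo `2` and is unchanged when the two diagonal, or the two off-diagonal, entries are exchanged).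
`UIpE`: `3 χ ≈ 0` modulo `p^M` for all `M`, so `3 χ ≈ 0` over `ℤ_p` and `χ ≈ 0`. -/
def VUIW : Prop := UIpE → ∀ (p : ℕ) (_ : Fact p.Prime) (κ : ℤ) (n : ℕ) (G ψ : ℤ → ℤ → ℤ_[p]), p ≠ 2 →
  Homog ψ → (∀ M : ℕ, 3 ≤ M → SymE p M (M + n - 1) (redP M ψ)) →
  EqC (act p 0 0 1 ψ - ψ) (κ • G) → EqC (act 0 (-1) ((p : ℤ) ^ n) 0 G) (-G) →
  EqC (act 0 (-1) ((p : ℤ) ^ n) 0 ψ) (act p 0 0 1 ψ)

/-- The content of UIW-E. -/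
def UIWE : Prop := ∀ (p : ℕ) (_ : Fact p.Prime) (κ : ℤ) (n : ℕ) (G ψ : ℤ → ℤ → ℤ_[p]), p ≠ 2 →
  Homog ψ → (∀ M : ℕ, 3 ≤ M → SymE p M (M + n - 1) (redP M ψ)) →
  EqC (act p 0 0 1 ψ - ψ) (κ • G) → EqC (act 0 (-1) ((p : ℤ) ^ n) 0 G) (-G) →
  EqC (act 0 (-1) ((p : ℤ) ^ n) 0 ψ) (act p 0 0 1 ψ)

/-- The content of UIQ-E: `UIpE` for every odd number `q` in place of `p` (used for `q = p²`). -/
def UIqE : Prop := ∀ (q : ℕ), 3 ≤ q → ¬ 2 ∣ q → ∀ (R : Type) (_ : AddCommGroup R) (r s : ℕ)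
  (χ : ℤ → ℤ → R), SymE q r s χ → EqC (act q 0 0 1 χ) χ → EqC ((3 : ℤ) • χ) 0

/-- UIQ-E (model Pool/Agent/Helper79/TL/M_UIp.lean). -/
def VUIq : Prop := StFar → UIqE

/-- F0-E. Level `4` (model Pool/Agent/Helper76/LV/M_F0.lean, `StF0`). `Nc a c ψ ≈ 0` for even `c`. `F_D` from MSE for `ψ`. (1) (R): `F_{uD}(α, pβ, γ/p, δ) = -F_D(-γ, -δ, α, β)`: by RGU for integral `g` in `Γ₀(p)`:
`u g = g' u`, `g' = (α pβ; γ/p δ)`, `eps g' = eps g`, `F_{uD}(g') = eps(g) ψ(u g D) = eps(g) ψ(S g D) = eps(g) eps(S g) F_D(S g) = -F_D(S g)` (`eps S = -1`). (2) (R) at `(1,0,0,1)` for `uD`: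
`F_{uuD}(1,0,0,1) = -F_{uD}(0,-1,1,0)`, and (R) at `(0, -1/p, p, 0)`: `F_{uD}(0,-1,1,0) = -F_D(-p,0,0,-1/p) = -F_D(1,0,0,1)`. So `ψ(u u D) = ψ(D)`. (3) Modulo `p^M` (`M ≥ 3`) `redP M ψ` is of level `(M, M)` for the number `p²`
(`SymE (p²) M M`: `(p²)^M ∣ b` implies `p^M ∣ b`) and invariant under `(p² 0; 0 1)`; `UIqE` for `q = p²`: `3 ψ ≈ 0` modulo all `p^M`, so `ψ ≈ 0`, `κ G ≈ 0`, `G ≈ 0`. -/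
def VF0 : Prop := MSE → RgT → RgU → UIqE → ∀ (p : ℕ) (_ : Fact p.Prime) (κ : ℤ) (a : ℕ)
  (G ψ : ℤ → ℤ → ℤ_[p]), p ≠ 2 → κ ≠ 0 → Homog ψ → (∀ M : ℕ, 3 ≤ M → SymE p M (M - 1) (redP M ψ)) →
  EqC (act p 0 0 1 ψ - ψ) (κ • G) → (∀ c : ℤ, 2 ∣ c → EqC (Nc a c G) 0) →
  (∀ h : ℤ, 2 ∣ h → EqC (Nb a h ψ) 0) → (∀ c : ℤ, 2 ∣ c → EqC (Nc a c (act p 0 0 1 ψ)) 0) →
  EqC (act 0 (-1) 1 0 ψ) (act p 0 0 1 ψ) → EqC G 0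

/-- The content of EG-E. -/
def EGE : Prop := ∀ (p : ℕ) (_ : Fact p.Prime) (a : ℕ) (Φ : ℤ → ℤ → ℕ → ℤ_[p]) (e : ℤ),
  (e = 1 ∨ e = -1) → ∀ v1 v2 w1 w2 α β γ δ : ℤ, (v1 ≠ 0 ∨ v2 ≠ 0) → (w1 ≠ 0 ∨ w2 ≠ 0) →
    EqC (act α β γ δ (cp Φ a)) (e • pr Φ ((Polynomial.C α * Polynomial.X + Polynomial.C β) ^ a *
      (Polynomial.C γ * Polynomial.X + Polynomial.C δ) ^ a)) →
    ((((e : ℤ) : ℤ_[p]) *
      (Φ (α * w1 + β * w2) (γ * w1 + δ * w2) a - Φ (α * v1 + β * v2) (γ * v1 + δ * v2) a) : ℤ_[p]) : ℚ_[p]) =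
      EGf a Φ v1 v2 w1 w2 α β γ δ

/-- EG-E (model: the fourth part of Pool/Agent/Helper47/LV/M_EG.lean; `e e = 1`). -/
def VEG : Prop := EGE

/-- F1-E. Level `4p`, `a` EVEN (model Pool/Agent/Helper29/LV/M_F1.lean, `StF1`). (0) `Nc a c ψ ≈ 0` for all even `c`. (1) `ψ∘S ≈ ψ`. (2) `F_D` from MSE: `F_D(Sg) = eps(Sg) ψ(S g D) = -eps(g) ψ(gD) = -F_D(g)`, so
`F_D(-γ,-δ,α,β) = -F_D(α,β,γ,δ)` (RGU). (3) `κ EGf_D(α,β,γ,δ) = F_{uD}(α, pβ, γ/p, δ) - F_D(α,β,γ,δ)` (RGU; for integral `g` in `Γ₀(p)`: EGE with `e = eps g`, `eps g' = eps g`). (4) The right side of (3) changes its sign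
under `(α,β,γ,δ) ↦ (-γ,-δ,α,β)`, the left side does not (EG, `a` even), so `EGf_D = 0`. -/
def VF1 : Prop := MSE → RgT → RgU → EG → EGE → ∀ (p : ℕ) (_ : Fact p.Prime) (κ : ℤ) (a : ℕ)
  (Φ : ℤ → ℤ → ℕ → ℤ_[p]) (ψ : ℤ → ℤ → ℤ_[p]), p ≠ 2 → κ ≠ 0 → Even a →
  (∀ α β γ δ : ℤ, α * δ - β * γ = 1 → (p : ℤ) ∣ γ →
    EqC (act α β γ δ (cp Φ a)) (eps α β γ δ • pr Φ ((Polynomial.C α * Polynomial.X + Polynomial.C β) ^ a *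
      (Polynomial.C γ * Polynomial.X + Polynomial.C δ) ^ a))) →
  Homog ψ → (∀ M : ℕ, 3 ≤ M → SymE p M M (redP M ψ)) →
  EqC (act p 0 0 1 ψ - ψ) (κ • cp Φ a) →
  (∀ h : ℤ, 2 ∣ h → EqC (Nb a h ψ) 0) → (∀ c : ℤ, 2 * (p : ℤ) ∣ c → EqC (Nc a c (act p 0 0 1 ψ)) 0) →
  EqC (act 0 (-1) (p : ℤ) 0 ψ) (act p 0 0 1 ψ) → EqC (cp Φ a) 0

/-- LALL-E (models Pool/Agent/Helper11/LV/M_LAll.lean, `StLAll`, and Pool/Agent/Helper9/TLW/M_All.lean). -/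
def VLAll : Prop := ∀ (p a n : ℕ) (Φ : ℤ → ℤ → ℕ → ℂ), p.Prime → WSNE p a n Φ → EqC (cp Φ a) 0 →
  ∀ i : ℕ, i ≤ 2 * a → EqC (cp Φ i) 0

/-- The properties of the Eichler potentials of a newform of level `4 p^n` whose central component is anti-invariant under the Fricke involution (no relation at `p`). Compare `IDataE`. -/
structure IDnE (p a n : ℕ) (I : ℤ → ℤ → ℕ → ℂ) : Prop where
  hom : ∀ i : ℕ, i ≤ 2 * a → Homog (cp I i)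
  inf : ∀ i : ℕ, i ≤ 2 * a → I 1 0 i = 0
  eqv : ∀ α β γ δ : ℤ, α * δ - β * γ = 1 → 4 * (p : ℤ) ^ n ∣ γ → ∀ i : ℕ, i ≤ 2 * a →
    EqC (act α β γ δ (cp I i)) (pr I ((Polynomial.C α * Polynomial.X + Polynomial.C β) ^ i *
      (Polynomial.C γ * Polynomial.X + Polynomial.C δ) ^ (2 * a - i)))
  t2 : ∀ j : ℕ, j ≤ 2 * a → ∀ x y : ℤ, (x ≠ 0 ∨ y ≠ 0) → ∑ i ∈ Finset.range 2,
    pr I ((Polynomial.C (2 : ℤ) * Polynomial.X - Polynomial.C (i : ℤ)) ^ j)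
      (2 * x + i * y) (2 * y) = 0
  s2 : ∀ j : ℕ, j ≤ 2 * a → ∃ C : ℂ, ∀ x y : ℤ, (x ≠ 0 ∨ y ≠ 0) → ∑ i ∈ Finset.range 2,
    pr I (Polynomial.X ^ j * (1 - Polynomial.C (2 * (p : ℤ) ^ n * i) * Polynomial.X) ^ (2 * a - j))
      x (2 * (p : ℤ) ^ n * i * x + y) = C
  fr : EqC (act 0 (-1) (4 * (p : ℤ) ^ n) 0 (cp I a)) (-(cp I a))
  hk : ∃ lam : ℕ → ℂ, ∀ (l : ℕ) (m : ℤ), l.Prime → l ≠ p → l ≠ 2 → IsCoprime m (l : ℤ) →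
    ∀ i : ℕ, i ≤ 2 * a → ∀ x y : ℤ, (x ≠ 0 ∨ y ≠ 0) →
    (∑ j ∈ Finset.range l, pr I ((Polynomial.C (l : ℤ) * Polynomial.X -
      Polynomial.C (m * j)) ^ i) (x + m * j * y) (l * y)) +
      ((l : ℤ) ^ (2 * a - i)) • I (l * x) y i = lam l * I x y i

/-- LTR-E. Transport (models Pool/Agent/Helper12/LV/M_LTr.lean, `StLTr`, and the module Tr of `StW`, row 20138, `SETr`): `PhiOf 2 a I`, that is `Φ_i(x, y) = 2^i I_i(x, 2y) + (-1)^(a+i) 2^i I_i(-x, 2y)`. `eqv`: (i) for `β`, `γ` even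
`(α β/2; 2γ δ)` is in `Γ₀(4p^n)`; (ii) `(1 1; 0 1)`: `t2` at `(x, 2y)`; (iii) `(1 0; p^n 1)`: `s2` at `(x, 2y)`; (iv) products. -/
def VLTr : Prop := ∀ (p a n : ℕ) (I : ℤ → ℤ → ℕ → ℂ), p.Prime → p ≠ 2 → IDnE p a n I → I 0 1 a = 0 →
  WSNE p a n (PhiOf 2 a I)

/-! ### Level `4p²` (the structure `WSymE p a 0`, coordinate `2 p z`) -/

/-- M2A-E. `SEW1` without `1 ≤ ν` (models Pool/Agent/Helper7/TLW/M_W1.lean, Pool/Agent/Helper36/LV/M_M2A.lean). -/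
def VM2A : Prop := ∀ (p : ℕ) (_ : Fact p.Prime) (a ν : ℕ) (Φ : ℤ → ℤ → ℕ → ℤ_[p]),
  WSymE p a ν Φ → ∀ M : ℕ, 1 ≤ M → SymE p M (M + ν) (redP M (cp Φ a))

/-- M2B-E. The trace relations for `EGf` (model Pool/Agent/Helper66/LV/M_M2B.lean, `StM2B`), with `2i` in place of `i`. -/
def VM2B : Prop := ∀ (p : ℕ) (_ : Fact p.Prime) (a : ℕ) (Φ : ℤ → ℤ → ℕ → ℤ_[p]),
  WSymE p a 0 Φ → ∀ v1 v2 w1 w2 : ℤ, (v1 ≠ 0 ∨ v2 ≠ 0) → (w1 ≠ 0 ∨ w2 ≠ 0) →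
  ∀ α β γ δ : ℚ_[p],
  (∑ i ∈ Finset.range p, EGf a Φ (v1 + 2 * i * v2) v2 (w1 + 2 * i * w2) w2
    α (β - 2 * i * α) γ (δ - 2 * i * γ)) = 0 ∧
  (∑ i ∈ Finset.range p, EGf a Φ v1 (2 * i * v1 + v2) w1 (2 * i * w1 + w2)
    (α - 2 * i * β) β (γ - 2 * i * δ) δ) = 0

/-- F2-E. Level `4p²` (model Pool/Agent/Helper15/LV/M_F2.lean, `StF2`). `G = cp Φ a`, `θ = ψ∘u ≈ ψ + κ G`. MCE (`ν = 1`) for `θ`: `F'_D` with `eps(g) θ(gD) = F'_D(g)`, `g` in `Γ₀(p)`; for `ψ' = ψ∘S` with `h = S g S⁻¹`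
(`eps h = eps g`): `F_D` with `eps(h) ψ(hD) = F_D(h)`, `h` in `Γ^0(p)` (signs: `ψ'` satisfies the hypotheses of MCE: `S n(b) = n'(-b) S`, `S n'(c) = n(-c) S`, even `b`, `c`). Equivariance (RGU): `F_{gD}(x) = eps(g) F_D(xg)`, `g` in
`Γ^0(p)`, `F'_{gD}(x) = eps(g) F'_D(xg)`, `g` in `Γ₀(p)`. `κ EGf_D = F'_D - F_D` everywhere (RGU on `Γ₀(p) ∩ Γ^0(p)`, EGE). For integral `g` of determinant one put `m(g) = eps(g) F_{gD}(g⁻¹)`, `m'(g) = eps(g) F'_{gD}(g⁻¹)`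
(and `0` for other determinants). `m(hg) = m(g)` for `h` in `Γ^0(p)`, `m'(hg) = m'(g)` for `h` in `Γ₀(p)`. `p m'(g) - ∑_{i<p} m(n(2i)g) = ∑_i eps(g) (F' - F)_{n(2i)gD}(g⁻¹ n(2i)⁻¹) = κ eps(g) ∑_i EGf_{n(2i)D'}(x n(2i)⁻¹) = 0`,
`D' = gD`, `x = g⁻¹` (M2B-E); and `∑_{i<p} m(n(2i)g) = ∑_{i<p} m(n(i)g)` (`m(n(p)g) = m(g)`, `p` odd: `i ↦ 2i` is a permutation modulo `p`); the second relation in the same way. AV: `m(1) = m'(1)`: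
`κ G(D) = θ(D) - ψ(D) = F'_D(1) - F_D(1) = 0`. -/
def VF2 : Prop := MCE → RgT → RgU → EG → EGE → VM2B → AV → SEW2 → ∀ (p : ℕ) (_ : Fact p.Prime) (κ : ℤ)
  (a : ℕ) (Φ : ℤ → ℤ → ℕ → ℤ_[p]) (ψ : ℤ → ℤ → ℤ_[p]), p ≠ 2 → κ ≠ 0 → WSymE p a 0 Φ →
  Homog ψ → (∀ M : ℕ, 3 ≤ M → SymE p M (M - 1) (redP M ψ)) →
  EqC (act p 0 0 1 ψ - ψ) (κ • cp Φ a) →
  (∀ h : ℤ, 2 ∣ h → EqC (Nb a h (ψ + κ • cp Φ a)) 0) → (∀ c : ℤ, 2 ∣ c → EqC (Nc a c ψ) 0) →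
  EqC (cp Φ a) 0

end Pool.Agent.Helper28.TL
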