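import Pool.Agent.Helper28.TL.Defs
import Pool.Agent.Helper28.TL.M_Half
import Pool.Agent.Helper79.TL.M_UIp
import Pool.Agent.Helper28.WK.StC

/-!
# Project TL, all weights: statements (levels `4 p^n`, `n = ν + 2`, coordinate `x = 2 p z`)

The statements of `Helper28/WK/{StB,StC}.lean` (project WK) with the sign character `eps` of `Helper4/TL/Eps.lean`. Everywhere the translations are EVEN (`eps = 1` on all matrices which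
occur in the limit argument), the Hecke operator of level `(r, s)` is `Tl l (2 p^r)`. The proofs of the modules of project WK (`Pool/Agent/Helper*/WK/M_*.lean`) can be adapted; the factor `4` of
Theorem A is replaced by a factor `κ`.
-/

set_option autoImplicit false

open Pool.Agent.Helper14.CV

namespace Pool.Agent.Helper28.TL

open Pool.Agent.Helper28.WK
open Pool.Agent.Helper4.TL
open Pool.Agent.Helper79.TL (UIpE)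

/-- Theorem A for twisted symbols for the prime `p`, with factor `κ`. -/
def TAE (p : ℕ) (κ : ℤ) : Prop := ∀ (m M : ℕ) (g : ℤ → ℤ → ZMod (p ^ M)), 5 ≤ m → SymE p 0 m g →
  EqC (act 0 (-1) ((p : ℤ) ^ m) 0 g) (-g) → EqC (act (-1) 0 0 1 g) g →
  (∀ ls : List ℕ, OkE p ls → evw 2 ls g = 0) →
  ∃ ψ : ℤ → ℤ → ZMod (p ^ M), SymE p 0 (m - 1) ψ ∧ EqC (act p 0 0 1 ψ - ψ) (κ • g)

/-- Twisted symbols of weight `2a+2` and level `4 p^(ν+2)` (coordinate `x = 2 p z`), killed by the traces at `p` in both directions (`tt`, `ss`), with central component anti-invariant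
under the Fricke involution (`fr`) and invariant under `*` (`st`), and killed by all Hecke words applied to the central path (`hk`). -/
structure WSymE {R : Type} [AddCommGroup R] (p a ν : ℕ) (Φ : ℤ → ℤ → ℕ → R) : Prop where
  hom : ∀ i : ℕ, i ≤ 2 * a → Homog (cp Φ i)
  eqv : ∀ α β γ δ : ℤ, α * δ - β * γ = 1 → (p : ℤ) ∣ β → (p : ℤ) ^ (ν + 1) ∣ γ →
    ∀ i : ℕ, i ≤ 2 * a →
    EqC (act α β γ δ (cp Φ i)) (eps α β γ δ • pr Φ ((Polynomial.C α * Polynomial.X + Polynomial.C β) ^ i *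
      (Polynomial.C γ * Polynomial.X + Polynomial.C δ) ^ (2 * a - i)))
  tt : ∀ j : ℕ, j ≤ 2 * a → EqC (fun x y => ∑ i ∈ Finset.range p,
    pr Φ ((Polynomial.X - Polynomial.C (2 * i : ℤ)) ^ j) (x + 2 * i * y) y) 0
  ss : ∀ j : ℕ, j ≤ 2 * a → EqC (fun x y => ∑ i ∈ Finset.range p,
    pr Φ (Polynomial.X ^ j * (1 - Polynomial.C (2 * (p : ℤ) ^ ν * i) * Polynomial.X) ^ (2 * a - j))
      x (2 * (p : ℤ) ^ ν * i * x + y)) 0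
  fr : EqC (act 0 (-1) ((p : ℤ) ^ ν) 0 (cp Φ a)) (-(cp Φ a))
  st : EqC (act (-1) 0 0 1 (cp Φ a)) (cp Φ a)
  hk : ∀ M : ℕ, 1 ≤ M → ∀ ls : List ℕ, OkE p ls →
    WTw a (2 * (p : ℤ) ^ M) ls Φ 1 0 a = WTw a (2 * (p : ℤ) ^ M) ls Φ 0 1 a

/-- LA-E. Theorem A at the level `(M, M+ν)`. Proof: as `StLa` (model `Pool/Agent/Helper10/WK/M_La.lean`): `g' = act (p^M) 0 0 1 g` is a twisted symbol of level `(0, 2M+ν)` (`p` odd: conjugation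
by `(p^M 0; 0 1)` does not change the matrix modulo `2`, so `eps` is the same); `Tl l 2 (act (p^M) 0 0 1 H) = act (p^M) 0 0 1 (Tl l (2 p^M) H)`. -/
def SELa : Prop := ∀ (p : ℕ) (_ : Fact p.Prime) (κ : ℤ), p ≠ 2 → TAE p κ →
  ∀ (ν M : ℕ) (g : ℤ → ℤ → ZMod (p ^ M)), 1 ≤ ν → 2 ≤ M → SymE p M (M + ν) g →
  EqC (act 0 (-1) ((p : ℤ) ^ ν) 0 g) (-g) → EqC (act (-1) 0 0 1 g) g →
  (∀ ls : List ℕ, OkE p ls → evw (2 * (p : ℤ) ^ M) ls g = 0) →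
  ∃ ψ : ℤ → ℤ → ZMod (p ^ M), SymE p M (M + ν - 1) ψ ∧ EqC (act p 0 0 1 ψ - ψ) (κ • g)

/-- LB2-E. The limit (model `Pool/Agent/Helper16/WK/M_Lb2.lean`). `UIpE` (helper79) says that a twisted `χ` with `act p 0 0 1 χ ≈ χ` has `3 χ ≈ 0`; so use `3 ψ_M` instead of `ψ_M` (normalised by `ψ_M 1 0 = 0`,
`ψ_M 0 0 = 0`): `3 ψ_(M+1)` modulo `p^M` equals `3 ψ_M`, and the limit `ψ` satisfies `ψ∘u - ψ ≈ 3 κ G`. -/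
def SELb2 : Prop := SELa → UIpE → ∀ (p : ℕ) (_ : Fact p.Prime) (κ : ℤ), p ≠ 2 → TAE p κ →
  ∀ (ν : ℕ) (G : ℤ → ℤ → ℤ_[p]),
  1 ≤ ν → Homog G → (∀ M : ℕ, 2 ≤ M → SymE p M (M + ν) (redP M G)) →
  EqC (act 0 (-1) ((p : ℤ) ^ ν) 0 G) (-G) → EqC (act (-1) 0 0 1 G) G →
  (∀ M : ℕ, 2 ≤ M → ∀ ls : List ℕ, OkE p ls → evw (2 * (p : ℤ) ^ M) ls (redP M G) = 0) →
  ∃ ψ : ℤ → ℤ → ℤ_[p], Homog ψ ∧ (∀ M : ℕ, 2 ≤ M → SymE p M (M + ν - 1) (redP M ψ)) ∧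
    EqC (act p 0 0 1 ψ - ψ) ((3 * κ : ℤ) • G)

/-- POL-E. Polynomiality (model `Pool/Agent/Helper63/WK/M_Pol.lean`, statement `StPol`), with even `h` and `c` (all matrices are the identity modulo `2`) and any factor `κ`. -/
def SEPol : Prop := ∀ (p : ℕ) (_ : Fact p.Prime) (κ : ℤ) (a ν : ℕ) (G ψ : ℤ → ℤ → ℤ_[p]), p ≠ 2 → 1 ≤ ν →
  Homog G → Homog ψ → (∀ M : ℕ, 2 ≤ M → SymE p M (M + ν - 1) (redP M ψ)) →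
  EqC (act p 0 0 1 ψ - ψ) (κ • G) → (∀ h : ℤ, 2 * (p : ℤ) ∣ h → EqC (Nb a h G) 0) →
  (∀ c : ℤ, 2 * (p : ℤ) ^ (ν + 1) ∣ c → EqC (Nc a c G) 0) →
  (∀ h : ℤ, 2 ∣ h → EqC (Nb a h (ψ + κ • G)) 0) ∧ (∀ c : ℤ, 2 * (p : ℤ) ^ ν ∣ c → EqC (Nc a c ψ) 0)

/-- GP-E (model `Pool/Agent/Helper86/WK/M_Gp.lean`): `StGp` with `4 p^ν` in place of `p^ν`. -/
def SEGp : Prop := StPl1 → ∀ (p : ℕ) (_ : Fact p.Prime) (a ν : ℕ) (P : ℤ → ℤ_[p]) (y : ℤ), 1 ≤ ν →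
  (Plf a P → ∃ (f : Polynomial ℚ_[p]) (K : ℝ), f.natDegree ≤ a ∧ ∀ (L : ℕ) (x b : ℤ), 1 ≤ L →
    (p : ℤ) ^ L ∣ b * (1 - 4 * (p : ℤ) ^ ν * x * y) - x →
    ‖(1 - 4 * (p : ℚ_[p]) ^ ν * x * y) ^ a * ((P b : ℤ_[p]) : ℚ_[p]) - f.eval (x : ℚ_[p])‖ ≤
      K * ((p : ℝ) ^ L)⁻¹) ∧
  (QPf a P → ∃ (r : ℤ → Polynomial ℚ_[p]) (K : ℝ), (∀ x, (r x).natDegree ≤ a) ∧
    (∀ x : ℤ, r (x + p) = r x) ∧ (∑ i ∈ Finset.range p, r (i : ℤ)) = 0 ∧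
    ∀ (L : ℕ) (x b : ℤ), 1 ≤ L → (p : ℤ) ^ L ∣ b * (1 - 4 * (p : ℤ) ^ ν * x * y) - x →
    ‖(1 - 4 * (p : ℚ_[p]) ^ ν * x * y) ^ a * ((P b : ℤ_[p]) : ℚ_[p]) - (r x).eval (x : ℚ_[p])‖ ≤
      K * ((p : ℝ) ^ L)⁻¹)

/-- The content of GR-E: `Gr` with `4 p^ν` in place of `p^ν` and a factor `κ ≠ 0` in place of `4`. -/
def GrE : Prop := ∀ (p : ℕ) (_ : Fact p.Prime) (κ : ℤ) (a ν : ℕ)
  (Fc Fb Hc Hb : ℤ → ℤ → ℤ_[p]), κ ≠ 0 → 1 ≤ ν → (∀ x, Plf a (Fc x)) →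
  (∀ y, Plf a (fun b => Fb y b + (κ : ℤ_[p]) * Hb y b)) → (∀ x, QPf a (Hc x)) → (∀ y, QPf a (Hb y)) →
  (∀ (L : ℕ) (x y c b : ℤ), 2 ≤ L → (p : ℤ) ^ L ∣ c * (1 - 4 * (p : ℤ) ^ ν * x * y) - y →
    (p : ℤ) ^ L ∣ b * (1 - 4 * (p : ℤ) ^ ν * x * y) - x →
    (p : ℤ_[p]) ^ L ∣ Fc x c - Fb y b ∧ (p : ℤ_[p]) ^ L ∣ Hc x c - Hb y b) → Hc 0 0 = 0

/-- GR-E (model `Pool/Agent/Helper2/WK/M_Gr.lean`, statement `StGr`). -/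
def SEGr : Prop := SEGp → StPl1 → GrE

/-- CC-E. Two matrices with the same coordinates (model `Pool/Agent/Helper99/WK/M_CC.lean`). `A = (1 2b; 0 1) (1 0; Y 1)`, `Y = 2 p^ν y`, `B = (1 0; C 1) (1 2x; 0 1)`, `C = 2 p^ν c`; `K = A B⁻¹` is the identity modulo `2`
(`eps K = 1`, `eps_id`), with upper right entry divisible by `p^L`, lower left entry by `p^(L+ν)`. -/
def SECC : Prop := ∀ (p ν L : ℕ) (R : Type) (_ : AddCommGroup R) (X : ℤ → ℤ → R),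
  SymE p L (L + ν) X → ∀ x y c b v1 v2 w1 w2 : ℤ, (v1 ≠ 0 ∨ v2 ≠ 0) → (w1 ≠ 0 ∨ w2 ≠ 0) →
  (p : ℤ) ^ L ∣ c * (1 - 4 * (p : ℤ) ^ ν * x * y) - y →
  (p : ℤ) ^ L ∣ b * (1 - 4 * (p : ℤ) ^ ν * x * y) - x →
  X (w1 + 2 * x * w2) (2 * (p : ℤ) ^ ν * c * (w1 + 2 * x * w2) + w2) -
    X (v1 + 2 * x * v2) (2 * (p : ℤ) ^ ν * c * (v1 + 2 * x * v2) + v2) =
  X (w1 + 2 * b * (2 * (p : ℤ) ^ ν * y * w1 + w2)) (2 * (p : ℤ) ^ ν * y * w1 + w2) -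
    X (v1 + 2 * b * (2 * (p : ℤ) ^ ν * y * v1 + v2)) (2 * (p : ℤ) ^ ν * y * v1 + v2)

/-- G5-E. The contradiction (model `Pool/Agent/Helper15/WK/M_G5.lean`, statement `StG5`), `Fc x c = ψ((1 0; 2p^ν c 1)(1 2x; 0 1) w) - ψ(... v)` etc. -/
def SEG5 : Prop := GrE → SECC → ∀ (p : ℕ) (_ : Fact p.Prime) (κ : ℤ) (a ν : ℕ) (G ψ : ℤ → ℤ → ℤ_[p]),
  κ ≠ 0 → 1 ≤ ν →
  (∀ M : ℕ, 2 ≤ M → SymE p M (M + ν) (redP M G)) →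
  (∀ M : ℕ, 2 ≤ M → SymE p M (M + ν - 1) (redP M ψ)) →
  (∀ h : ℤ, 2 ∣ h → EqC (Nb a h (ψ + κ • G)) 0) → (∀ c : ℤ, 2 * (p : ℤ) ^ ν ∣ c → EqC (Nc a c ψ) 0) →
  (∀ v1 v2 w1 w2 : ℤ, (v1 ≠ 0 ∨ v2 ≠ 0) → (w1 ≠ 0 ∨ w2 ≠ 0) →
    QPf a (fun b => G (w1 + 2 * b * w2) w2 - G (v1 + 2 * b * v2) v2) ∧
    QPf a (fun c => G w1 (2 * (p : ℤ) ^ ν * c * w1 + w2) - G v1 (2 * (p : ℤ) ^ ν * c * v1 + v2))) →
  EqC G 0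

/-- W1-E (model `Pool/Agent/Helper36/WK/M_W1.lean`). -/
def SEW1 : Prop := ∀ (p : ℕ) (_ : Fact p.Prime) (a ν : ℕ) (Φ : ℤ → ℤ → ℕ → ℤ_[p]), 1 ≤ ν →
  WSymE p a ν Φ → ∀ M : ℕ, 1 ≤ M → SymE p M (M + ν) (redP M (cp Φ a))

/-- W2-E (model `Pool/Agent/Helper28/WK/M_W2.lean`); `eps = 1` by `eps_id`. -/
def SEW2 : Prop := ∀ (p : ℕ) (_ : Fact p.Prime) (a ν : ℕ) (Φ : ℤ → ℤ → ℕ → ℤ_[p]),
  WSymE p a ν Φ → (∀ h : ℤ, 2 * (p : ℤ) ∣ h → EqC (Nb a h (cp Φ a)) 0) ∧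
    (∀ c : ℤ, 2 * (p : ℤ) ^ (ν + 1) ∣ c → EqC (Nc a c (cp Φ a)) 0)

/-- W3-E (model `Pool/Agent/Helper1/WK/M_W3.lean`), `V_j(b) = U(b)((X - 2b)^j)`, `V'_j(c) = U'(c)(X^j (1 - 2p^ν c X)^(2a-j))`. -/
def SEW3 : Prop := ∀ (p : ℕ) (_ : Fact p.Prime) (a ν : ℕ) (Φ : ℤ → ℤ → ℕ → ℤ_[p]),
  WSymE p a ν Φ → ∀ v1 v2 w1 w2 : ℤ, (v1 ≠ 0 ∨ v2 ≠ 0) → (w1 ≠ 0 ∨ w2 ≠ 0) →
    QPf a (fun b => cp Φ a (w1 + 2 * b * w2) w2 - cp Φ a (v1 + 2 * b * v2) v2) ∧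
    QPf a (fun c => cp Φ a w1 (2 * (p : ℤ) ^ ν * c * w1 + w2) -
      cp Φ a v1 (2 * (p : ℤ) ^ ν * c * v1 + v2))

/-- W4-E (model `Pool/Agent/Helper97/WK/M_W4.lean`), with `2 p^M` in place of `p^M`. -/
def SEW4 : Prop := ∀ (p : ℕ) (_ : Fact p.Prime) (a ν : ℕ) (Φ : ℤ → ℤ → ℕ → ℤ_[p]),
  WSymE p a ν Φ → ∀ M : ℕ, 1 ≤ M → ∀ ls : List ℕ, OkE p ls →
    evw (2 * (p : ℤ) ^ M) ls (redP M (cp Φ a)) = 0

/-- The content of ZP-E (assembly: helper28). -/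
def ZpE : Prop := ∀ (p : ℕ) (_ : Fact p.Prime) (κ : ℤ), p ≠ 2 → κ ≠ 0 → TAE p κ →
  ∀ (a ν : ℕ) (Φ : ℤ → ℤ → ℕ → ℤ_[p]), 1 ≤ ν → WSymE p a ν Φ → EqC (cp Φ a) 0

/-- MAP-E. Additive maps (model `Pool/Agent/Helper47/WK/M_Map.lean`, statement `StMap`). -/
def SEMap : Prop := ∀ (p a ν : ℕ), p ≠ 0 → ∀ (R S : Type) (_ : AddCommGroup R) (_ : AddCommGroup S)
  (lam : R →+ S) (Φ : ℤ → ℤ → ℕ → R),
  (WSymE p a ν Φ → WSymE p a ν (fun x y i => lam (Φ x y i))) ∧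
  (Function.Injective lam → WSymE p a ν (fun x y i => lam (Φ x y i)) → WSymE p a ν Φ) ∧
  ∀ Φ' : ℤ → ℤ → ℕ → R, (∀ i : ℕ, i ≤ 2 * a → EqC (cp Φ' i) (cp Φ i)) → WSymE p a ν Φ →
    WSymE p a ν Φ'

/-- DEN-E. Bounded denominators (model `Pool/Agent/Helper66/WK/M_Den.lean`, statement `StDen`); matrices which agree modulo `p^(ν+1)`; the sign `eps` does not change integrality. -/
def SEDen : Prop := StFar → SEMap → ∀ (p a ν : ℕ) (Φ : ℤ → ℤ → ℕ → ℚ), p.Prime → WSymE p a ν Φ →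
  ∃ (N : ℤ) (Ψ : ℤ → ℤ → ℕ → ℤ), N ≠ 0 ∧ WSymE p a ν Ψ ∧
    ∀ i : ℕ, i ≤ 2 * a → EqC (fun x y => ((Ψ x y i : ℤ) : ℚ)) (N • cp Φ i)

/-- QC-E. From `ℤ_p` to `ℂ` (model `Pool/Agent/Helper21/WK/M_QC.lean`). -/
def SEQC : Prop := ZpE → SEMap → SEDen → StFar → ∀ (p : ℕ) (_ : Fact p.Prime) (κ : ℤ), p ≠ 2 → κ ≠ 0 →
  TAE p κ → ∀ (a ν : ℕ) (Φ : ℤ → ℤ → ℕ → ℂ), 1 ≤ ν → WSymE p a ν Φ → EqC (cp Φ a) 0

/-- ALL-E. All components (model `Pool/Agent/Helper32/WK/M_All.lean`, statement `StAll`), with `b` in `2 p ℤ`, `c` in `2 p^(ν+1) ℤ`. -/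
def SEAll : Prop := ∀ (p a ν : ℕ) (Φ : ℤ → ℤ → ℕ → ℂ), p.Prime → WSymE p a ν Φ → EqC (cp Φ a) 0 →
  ∀ i : ℕ, i ≤ 2 * a → EqC (cp Φ i) 0

/-! ### Interface with the analytic part -/

/-- The properties of the Eichler potentials of a newform of level `4 p^(ν+2)` with root number `+1`. -/
structure IDataE (p a ν : ℕ) (I : ℤ → ℤ → ℕ → ℂ) : Prop where
  hom : ∀ i : ℕ, i ≤ 2 * a → Homog (cp I i)
  inf : ∀ i : ℕ, i ≤ 2 * a → I 1 0 i = 0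
  eqv : ∀ α β γ δ : ℤ, α * δ - β * γ = 1 → 4 * (p : ℤ) ^ (ν + 2) ∣ γ → ∀ i : ℕ, i ≤ 2 * a →
    EqC (act α β γ δ (cp I i)) (pr I ((Polynomial.C α * Polynomial.X + Polynomial.C β) ^ i *
      (Polynomial.C γ * Polynomial.X + Polynomial.C δ) ^ (2 * a - i)))
  t2 : ∀ j : ℕ, j ≤ 2 * a → ∀ x y : ℤ, (x ≠ 0 ∨ y ≠ 0) → ∑ i ∈ Finset.range 2,
    pr I ((Polynomial.C (2 : ℤ) * Polynomial.X - Polynomial.C (i : ℤ)) ^ j)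
      (2 * x + i * y) (2 * y) = 0
  s2 : ∀ j : ℕ, j ≤ 2 * a → ∃ C : ℂ, ∀ x y : ℤ, (x ≠ 0 ∨ y ≠ 0) → ∑ i ∈ Finset.range 2,
    pr I (Polynomial.X ^ j * (1 - Polynomial.C (2 * (p : ℤ) ^ (ν + 2) * i) * Polynomial.X) ^ (2 * a - j))
      x (2 * (p : ℤ) ^ (ν + 2) * i * x + y) = C
  tt : ∀ j : ℕ, j ≤ 2 * a → ∀ x y : ℤ, (x ≠ 0 ∨ y ≠ 0) → ∑ i ∈ Finset.range p,
    pr I ((Polynomial.C (p : ℤ) * Polynomial.X - Polynomial.C (i : ℤ)) ^ j)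
      (p * x + i * y) (p * y) = 0
  ss : ∀ j : ℕ, j ≤ 2 * a → ∃ C : ℂ, ∀ x y : ℤ, (x ≠ 0 ∨ y ≠ 0) → ∑ i ∈ Finset.range p,
    pr I (Polynomial.X ^ j *
      (1 - Polynomial.C (4 * (p : ℤ) ^ (ν + 1) * i) * Polynomial.X) ^ (2 * a - j))
      x (4 * (p : ℤ) ^ (ν + 1) * i * x + y) = C
  fr : EqC (act 0 (-1) (4 * (p : ℤ) ^ (ν + 2)) 0 (cp I a)) (-(cp I a))
  hk : ∃ lam : ℕ → ℂ, ∀ (l : ℕ) (m : ℤ), l.Prime → l ≠ p → l ≠ 2 → IsCoprime m (l : ℤ) →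
    ∀ i : ℕ, i ≤ 2 * a → ∀ x y : ℤ, (x ≠ 0 ∨ y ≠ 0) →
    (∑ j ∈ Finset.range l, pr I ((Polynomial.C (l : ℤ) * Polynomial.X -
      Polynomial.C (m * j)) ^ i) (x + m * j * y) (l * y)) +
      ((l : ℤ) ^ (2 * a - i)) • I (l * x) y i = lam l * I x y i

/-- The symmetrised potentials in the coordinate `2 p z`: `PhiOf (2 p) a I` of project WK,
`Φ_i(x, y) = (2p)^i I_i(x, 2py) + (-1)^(a+i) (2p)^i I_i(-x, 2py)`.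

TR-E. Transport (model `Pool/Agent/Helper12/WK/M_Tr.lean`, statement `StTr`). `eqv`: three steps as in `Helper28/TL/M_Half.lean` (`symE_half`): (i) for `β`, `γ` even as in `StTr` (the matrix `(α β/(2p); 2pγ δ)` is
in `Γ₀(4p^(ν+2))`); (ii) `(1 p; 0 1)`: `t2` at `(x, 2py)`: `∑_{i<2} pr I ((2X-i)^j)(2x + 2pi y, 4py) = 0`; (iii) `(1 0; p^(ν+1) 1)`: `s2` at `(x, 2py)`; (iv) every `κ` of the group is a product of such matrices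
(`p`, `p^(ν+1)` odd), and the relation for `κ` and `κ'` gives the one for `κ κ'` (`eps_mul`; `pr` of a product of polynomials: the polynomials of degree `≤ 2a` form a representation). -/
def SETr : Prop := ∀ (p a ν : ℕ) (I : ℤ → ℤ → ℕ → ℂ), p.Prime → p ≠ 2 → IDataE p a ν I → I 0 1 a = 0 →
  WSymE p a ν (PhiOf (2 * p) a I)

end Pool.Agent.Helper28.TL
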